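/-
  MP_5180ba_lc: linear bound for supports in boundedly many arithmetic progressions.
  Definitions: zero counts in sectors, rotated polynomials, the class `Cls`.
-/
import Mathlib
set_option autoImplicit false
open Polynomial

namespace SEC

/-- `x` lies in the open sector `|arg x| < π / d` (and is not `0`). -/
def InO (d : ℕ) (x : ℂ) : Prop := x ≠ 0 ∧ |x.arg| < Real.pi / d

/-- `x` lies in the closed sector `|arg x| ≤ π / d` (and is not `0`). -/
def InC (d : ℕ) (x : ℂ) : Prop := x ≠ 0 ∧ |x.arg| ≤ Real.pi / d

/-- a real polynomial as a complex polynomial -/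
noncomputable def toC (P : ℝ[X]) : ℂ[X] := P.map (algebraMap ℝ ℂ)

open Classical in
/-- number of zeros in the open sector, with multiplicity -/
noncomputable def cntO (d : ℕ) (P : ℝ[X]) : ℕ := ((toC P).roots.filter (InO d)).card

open Classical in
/-- number of zeros in the closed sector, with multiplicity -/
noncomputable def cntC (d : ℕ) (P : ℝ[X]) : ℕ := ((toC P).roots.filter (InC d)).card

open Classical in
/-- number of positive roots, with multiplicity -/
noncomputable def cntP (P : ℝ[X]) : ℕ := (P.roots.filter (fun x => 0 < x)).card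

open Classical in
/-- number of distinct positive roots -/
noncomputable def posD (P : ℝ[X]) : ℕ := (P.roots.toFinset.filter (fun x => 0 < x)).card

/-- real part of `r ↦ P (z r)`, as a real polynomial in `r` -/
noncomputable def rotRe (z : ℂ) (P : ℝ[X]) : ℝ[X] :=
  P.sum fun n a => monomial n (a * (z ^ n).re)

/-- imaginary part of `r ↦ P (z r)`, as a real polynomial in `r` -/
noncomputable def rotIm (z : ℂ) (P : ℝ[X]) : ℝ[X] :=
  P.sum fun n a => monomial n (a * (z ^ n).im)

/-- the direction `e^(i π / d)` -/
noncomputable def zeta (d : ℕ) : ℂ := Complex.exp (Complex.I * (Real.pi / d))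

/-- `r ↦ Im (F (ζ r) * conj (G (ζ r)))` with `ζ = e^(i π / d)`, as a real polynomial -/
noncomputable def Jp (d : ℕ) (F G : ℝ[X]) : ℝ[X] :=
  rotIm (zeta d) F * rotRe (zeta d) G - rotRe (zeta d) F * rotIm (zeta d) G

/-- sums of products of polynomials of degree at most `n` in `x ^ d`, `d` in the list;
nested form: at each level a sum of `R` terms `h (x ^ d) * G x`. -/
def Cls : List ℕ → ℕ → ℕ → ℝ[X] → Prop
  | [], _, _, P => ∃ a : ℝ, P = C a
  | d :: ds, n, R, P => ∃ h G : Fin R → ℝ[X], (∀ k, (h k).natDegree ≤ n) ∧
      (∀ k, Cls ds n R (G k)) ∧ P = ∑ k, expand ℝ d (h k) * G k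

end SEC
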