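/- MP_5180ba_lc, piece R1: rotated polynomials. -/
import Pool.Agent.Lib_MP_5180ba_sec.Defs
set_option autoImplicit false
open Polynomial

namespace SEC

private theorem Rot_cRe (z : ℂ) (P : ℝ[X]) (n : ℕ) : (rotRe z P).coeff n = P.coeff n * (z ^ n).re := by
  rw [rotRe, sum_def, finsetSum_coeff]
  simp only [coeff_monomial]
  rw [Finset.sum_ite_eq' P.support n]
  split_ifs with h
  · rfl
  · rw [notMem_support_iff.1 h, zero_mul]

private theorem Rot_cIm (z : ℂ) (P : ℝ[X]) (n : ℕ) : (rotIm z P).coeff n = P.coeff n * (z ^ n).im := by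
  rw [rotIm, sum_def, finsetSum_coeff]
  simp only [coeff_monomial]
  rw [Finset.sum_ite_eq' P.support n]
  split_ifs with h
  · rfl
  · rw [notMem_support_iff.1 h, zero_mul]

private theorem Rot_expand (z : ℂ) (d : ℕ) (h : ℝ[X]) (r : ℝ) :
    (toC (expand ℝ d h)).eval (z * (r : ℂ)) = (toC h).eval (z ^ d * ((r ^ d : ℝ) : ℂ)) := by
  rw [toC, toC, map_expand, expand_eval, mul_pow, Complex.ofReal_pow]

private theorem Rot_neg (h : ℝ[X]) (r : ℝ) :
    (toC h).eval (-1 * (r : ℂ)) = ((h.eval (-r) : ℝ) : ℂ) := by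
  have h1 : (-1 * (r : ℂ)) = algebraMap ℝ ℂ (-r) := by
    rw [Complex.coe_algebraMap]
    push_cast
    ring
  rw [toC, eval_map, h1, eval₂_at_apply]
  rfl

theorem rotRe_eval (z : ℂ) (P : ℝ[X]) (r : ℝ) :
    (rotRe z P).eval r = ((toC P).eval (z * (r : ℂ))).re := by
  rw [rotRe, toC, eval_map, eval₂_eq_sum, sum_def, sum_def, eval_finsetSum, Complex.re_sum]
  refine Finset.sum_congr rfl fun n _ => ?_
  rw [eval_monomial, mul_pow, ← Complex.ofReal_pow, Complex.coe_algebraMap, Complex.re_ofReal_mul,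
    Complex.re_mul_ofReal, mul_assoc]

theorem rotIm_eval (z : ℂ) (P : ℝ[X]) (r : ℝ) :
    (rotIm z P).eval r = ((toC P).eval (z * (r : ℂ))).im := by
  rw [rotIm, toC, eval_map, eval₂_eq_sum, sum_def, sum_def, eval_finsetSum, Complex.im_sum]
  refine Finset.sum_congr rfl fun n _ => ?_
  rw [eval_monomial, mul_pow, ← Complex.ofReal_pow, Complex.coe_algebraMap, Complex.im_ofReal_mul,
    Complex.im_mul_ofReal, mul_assoc]

theorem rotRe_add (z : ℂ) (P Q : ℝ[X]) : rotRe z (P + Q) = rotRe z P + rotRe z Q := by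
  ext n
  rw [coeff_add, Rot_cRe, Rot_cRe, Rot_cRe, coeff_add, add_mul]

theorem rotIm_add (z : ℂ) (P Q : ℝ[X]) : rotIm z (P + Q) = rotIm z P + rotIm z Q := by
  ext n
  rw [coeff_add, Rot_cIm, Rot_cIm, Rot_cIm, coeff_add, add_mul]

theorem rotRe_sum {ι : Type*} (s : Finset ι) (z : ℂ) (P : ι → ℝ[X]) :
    rotRe z (∑ i ∈ s, P i) = ∑ i ∈ s, rotRe z (P i) := by
  ext n
  rw [finsetSum_coeff, Rot_cRe, finsetSum_coeff, Finset.sum_mul]
  exact Finset.sum_congr rfl fun i _ => (Rot_cRe _ _ _).symm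

theorem rotIm_sum {ι : Type*} (s : Finset ι) (z : ℂ) (P : ι → ℝ[X]) :
    rotIm z (∑ i ∈ s, P i) = ∑ i ∈ s, rotIm z (P i) := by
  ext n
  rw [finsetSum_coeff, Rot_cIm, finsetSum_coeff, Finset.sum_mul]
  exact Finset.sum_congr rfl fun i _ => (Rot_cIm _ _ _).symm

theorem rotRe_mul (z : ℂ) (P Q : ℝ[X]) :
    rotRe z (P * Q) = rotRe z P * rotRe z Q - rotIm z P * rotIm z Q := by
  refine Polynomial.funext fun r => ?_
  rw [eval_sub, eval_mul, eval_mul, rotRe_eval, rotRe_eval, rotRe_eval, rotIm_eval, rotIm_eval, toC,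
    Polynomial.map_mul, eval_mul, Complex.mul_re]
  rfl

theorem rotIm_mul (z : ℂ) (P Q : ℝ[X]) :
    rotIm z (P * Q) = rotRe z P * rotIm z Q + rotIm z P * rotRe z Q := by
  refine Polynomial.funext fun r => ?_
  rw [eval_add, eval_mul, eval_mul, rotRe_eval, rotRe_eval, rotIm_eval, rotIm_eval, rotIm_eval, toC,
    Polynomial.map_mul, eval_mul, Complex.mul_im]
  rfl

theorem rotRe_C (z : ℂ) (a : ℝ) : rotRe z (C a) = C a := by
  ext n
  rw [Rot_cRe, coeff_C]
  split_ifs with h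
  · rw [h, pow_zero, Complex.one_re, mul_one]
  · rw [zero_mul]

theorem rotIm_C (z : ℂ) (a : ℝ) : rotIm z (C a) = 0 := by
  ext n
  rw [Rot_cIm, coeff_C, coeff_zero]
  split_ifs with h
  · rw [h, pow_zero, Complex.one_im, mul_zero]
  · rw [zero_mul]

theorem natDegree_rotRe_le (z : ℂ) (P : ℝ[X]) : (rotRe z P).natDegree ≤ P.natDegree := by
  rw [natDegree_le_iff_coeff_eq_zero]
  intro n hn
  rw [Rot_cRe, coeff_eq_zero_of_natDegree_lt hn, zero_mul]

theorem natDegree_rotIm_le (z : ℂ) (P : ℝ[X]) : (rotIm z P).natDegree ≤ P.natDegree := by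
  rw [natDegree_le_iff_coeff_eq_zero]
  intro n hn
  rw [Rot_cIm, coeff_eq_zero_of_natDegree_lt hn, zero_mul]

theorem rotRe_expand (z : ℂ) (d : ℕ) (h : ℝ[X]) :
    rotRe z (expand ℝ d h) = expand ℝ d (rotRe (z ^ d) h) := by
  refine Polynomial.funext fun r => ?_
  rw [expand_eval, rotRe_eval, rotRe_eval, Rot_expand]

theorem rotIm_expand (z : ℂ) (d : ℕ) (h : ℝ[X]) :
    rotIm z (expand ℝ d h) = expand ℝ d (rotIm (z ^ d) h) := by
  refine Polynomial.funext fun r => ?_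
  rw [expand_eval, rotIm_eval, rotIm_eval, Rot_expand]

theorem rotRe_neg_one (h : ℝ[X]) : rotRe (-1) h = h.comp (-X) := by
  refine Polynomial.funext fun r => ?_
  rw [rotRe_eval, Rot_neg, Complex.ofReal_re, eval_comp, eval_neg, eval_X]

theorem rotIm_neg_one (h : ℝ[X]) : rotIm (-1) h = 0 := by
  refine Polynomial.funext fun r => ?_
  rw [rotIm_eval, Rot_neg, Complex.ofReal_im, eval_zero]

theorem zeta_pow (d : ℕ) (hd : 1 ≤ d) : zeta d ^ d = -1 := by
  have hd' : (d : ℂ) ≠ 0 := by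
    have : d ≠ 0 := by omega
    exact_mod_cast this
  rw [zeta, ← Complex.exp_nat_mul]
  have h : (d : ℂ) * (Complex.I * (Real.pi / d)) = Real.pi * Complex.I := by
    field_simp
  rw [h, Complex.exp_pi_mul_I]

theorem Jp_eval (d : ℕ) (F G : ℝ[X]) (r : ℝ) :
    (Jp d F G).eval r = ((toC F).eval (zeta d * (r : ℂ)) *
      (starRingEnd ℂ) ((toC G).eval (zeta d * (r : ℂ)))).im := by
  rw [Jp, eval_sub, eval_mul, eval_mul, rotRe_eval, rotRe_eval, rotIm_eval, rotIm_eval,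
    Complex.mul_im, Complex.conj_re, Complex.conj_im]
  ring

theorem Jp_self (d : ℕ) (F : ℝ[X]) : Jp d F F = 0 := by
  rw [Jp]
  ring

/-- the first argument may be multiplied by a polynomial in `x ^ d` -/
theorem Jp_expand_mul (d : ℕ) (hd : 1 ≤ d) (h G G0 : ℝ[X]) :
    Jp d (expand ℝ d h * G) G0 = expand ℝ d (h.comp (-X)) * Jp d G G0 := by
  rw [Jp, Jp, rotIm_mul, rotRe_mul, rotRe_expand, rotIm_expand, zeta_pow d hd, rotRe_neg_one,
    rotIm_neg_one, map_zero]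
  ring

theorem Jp_sum {ι : Type*} (s : Finset ι) (d : ℕ) (P : ι → ℝ[X]) (G0 : ℝ[X]) :
    Jp d (∑ i ∈ s, P i) G0 = ∑ i ∈ s, Jp d (P i) G0 := by
  simp only [Jp, rotIm_sum, rotRe_sum, Finset.sum_mul, Finset.sum_sub_distrib]

end SEC
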