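/- MP_5180ba_lc, piece R2: closure properties of the class `Cls`. -/
import Pool.Agent.Lib_MP_5180ba_sec.Rot
set_option autoImplicit false
open Polynomial

namespace SEC

/-- a sum of `R` terms, indexed by any finite type of cardinality at most `R` -/
private theorem cls_cons_of_zero (ds : List ℕ) (hz : ∀ n R : ℕ, Cls ds n R 0) {ι : Type*} [Fintype ι]
    (d n R : ℕ) (hc : Fintype.card ι ≤ R) (h G : ι → ℝ[X])
    (hh : ∀ i, (h i).natDegree ≤ n) (hG : ∀ i, Cls ds n R (G i)) :
    Cls (d :: ds) n R (∑ i, expand ℝ d (h i) * G i) := by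
  obtain ⟨t, rfl⟩ := Nat.exists_eq_add_of_le hc
  let e : ι ≃ Fin (Fintype.card ι) := Fintype.equivFin ι
  refine ⟨Fin.addCases (fun i => h (e.symm i)) (fun _ => 0),
    Fin.addCases (fun i => G (e.symm i)) (fun _ => 0), ?_, ?_, ?_⟩
  · intro k
    refine Fin.addCases (fun i => ?_) (fun i => ?_) k
    · simpa only [Fin.addCases_left] using hh _
    · simp only [Fin.addCases_right, natDegree_zero, Nat.zero_le]
  · intro k
    refine Fin.addCases (fun i => ?_) (fun i => ?_) k
    · simpa only [Fin.addCases_left] using hG _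
    · simpa only [Fin.addCases_right] using hz _ _
  · rw [Fin.sum_univ_add]
    simp only [Fin.addCases_left, Fin.addCases_right, mul_zero, Finset.sum_const_zero, add_zero]
    exact (Equiv.sum_comp e.symm (fun i => expand ℝ d (h i) * G i)).symm

theorem cls_zero (ds : List ℕ) (n R : ℕ) : Cls ds n R 0 := by
  induction ds with
  | nil => exact ⟨0, by simp⟩
  | cons d ds ih => exact ⟨fun _ => 0, fun _ => 0, fun _ => by simp, fun _ => ih, by simp⟩

private theorem cls_cons (ds : List ℕ) {ι : Type*} [Fintype ι]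
    (d n R : ℕ) (hc : Fintype.card ι ≤ R) (h G : ι → ℝ[X])
    (hh : ∀ i, (h i).natDegree ≤ n) (hG : ∀ i, Cls ds n R (G i)) :
    Cls (d :: ds) n R (∑ i, expand ℝ d (h i) * G i) :=
  cls_cons_of_zero ds (fun n R => cls_zero ds n R) d n R hc h G hh hG

theorem cls_mono (ds : List ℕ) {n n' R R' : ℕ} (hn : n ≤ n') (hR : R ≤ R') {P : ℝ[X]}
    (h : Cls ds n R P) : Cls ds n' R' P := by
  induction ds generalizing P with
  | nil => exact h
  | cons d ds ih =>
    obtain ⟨f, G, hf, hG, rfl⟩ := h
    exact cls_cons ds d n' R' (by simpa using hR) f G (fun i => (hf i).trans hn)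
      (fun i => ih (hG i))

theorem cls_add (ds : List ℕ) {n R S : ℕ} {P Q : ℝ[X]}
    (hP : Cls ds n R P) (hQ : Cls ds n S Q) : Cls ds n (R + S) (P + Q) := by
  cases ds with
  | nil =>
    obtain ⟨a, rfl⟩ := hP
    obtain ⟨b, rfl⟩ := hQ
    exact ⟨a + b, by simp⟩
  | cons d ds =>
    obtain ⟨f, G, hf, hG, rfl⟩ := hP
    obtain ⟨f', G', hf', hG', rfl⟩ := hQ
    have := cls_cons ds (ι := Fin R ⊕ Fin S) d n (R + S) (by simp)
      (Sum.elim f f') (Sum.elim G G')
      (by rintro (i | i)
          · exact hf i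
          · exact hf' i)
      (by rintro (i | i)
          · exact cls_mono ds le_rfl (Nat.le_add_right _ _) (hG i)
          · exact cls_mono ds le_rfl (Nat.le_add_left _ _) (hG' i))
    rw [Fintype.sum_sum_type] at this
    simpa using this

theorem cls_sum {ι : Type*} (s : Finset ι) (ds : List ℕ) {n R : ℕ} (P : ι → ℝ[X])
    (hP : ∀ i ∈ s, Cls ds n R (P i)) : Cls ds n (s.card * R) (∑ i ∈ s, P i) := by
  classical
  induction s using Finset.induction_on with
  | empty => simpa using cls_zero ds n 0
  | insert a s ha ih =>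
    rw [Finset.sum_insert ha, Finset.card_insert_of_notMem ha]
    have h1 := cls_add ds (hP a (Finset.mem_insert_self a s))
      (ih (fun i hi => hP i (Finset.mem_insert_of_mem hi)))
    have e : (s.card + 1) * R = R + s.card * R := by ring
    rw [e]
    exact h1

theorem cls_C (ds : List ℕ) (n : ℕ) (a : ℝ) : Cls ds n 1 (C a) := by
  induction ds with
  | nil => exact ⟨a, rfl⟩
  | cons d ds ih =>
    exact ⟨fun _ => 1, fun _ => C a, fun _ => by simp, fun _ => ih, by simp⟩

theorem cls_C_mul (ds : List ℕ) {n R : ℕ} (a : ℝ) {P : ℝ[X]} (hP : Cls ds n R P) :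
    Cls ds n R (C a * P) := by
  cases ds with
  | nil =>
    obtain ⟨b, rfl⟩ := hP
    exact ⟨a * b, by simp⟩
  | cons d ds =>
    obtain ⟨f, G, hf, hG, rfl⟩ := hP
    refine ⟨fun k => C a * f k, G, fun k => (natDegree_C_mul_le a (f k)).trans (hf k), hG, ?_⟩
    rw [Finset.mul_sum]
    refine Finset.sum_congr rfl (fun k _ => ?_)
    rw [map_mul, expand_C, mul_assoc]

theorem cls_neg (ds : List ℕ) {n R : ℕ} {P : ℝ[X]} (hP : Cls ds n R P) : Cls ds n R (-P) := by
  have := cls_C_mul ds (-1) hP
  simpa using this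

theorem cls_sub (ds : List ℕ) {n R S : ℕ} {P Q : ℝ[X]}
    (hP : Cls ds n R P) (hQ : Cls ds n S Q) : Cls ds n (R + S) (P - Q) := by
  rw [sub_eq_add_neg]
  exact cls_add ds hP (cls_neg ds hQ)

theorem cls_mul (ds : List ℕ) {n m R S : ℕ} {P Q : ℝ[X]}
    (hP : Cls ds n R P) (hQ : Cls ds m S Q) : Cls ds (n + m) (R * S) (P * Q) := by
  induction ds generalizing P Q with
  | nil =>
    obtain ⟨a, rfl⟩ := hP
    obtain ⟨b, rfl⟩ := hQ
    exact ⟨a * b, by simp⟩
  | cons d ds ih =>
    obtain ⟨f, G, hf, hG, rfl⟩ := hP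
    obtain ⟨f', G', hf', hG', rfl⟩ := hQ
    have := cls_cons ds (ι := Fin R × Fin S) d (n + m) (R * S) (by simp)
      (fun p => f p.1 * f' p.2) (fun p => G p.1 * G' p.2)
      (fun p => natDegree_mul_le.trans (Nat.add_le_add (hf p.1) (hf' p.2)))
      (fun p => ih (hG p.1) (hG' p.2))
    rw [Fintype.sum_prod_type] at this
    convert this using 1
    rw [Finset.sum_mul_sum]
    refine Finset.sum_congr rfl (fun i _ => Finset.sum_congr rfl (fun j _ => ?_))
    rw [map_mul]
    ring

theorem cls_rot (ds : List ℕ) {n R : ℕ} {P : ℝ[X]} (z : ℂ) (hP : Cls ds n R P) :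
    Cls ds n (2 * R) (rotRe z P) ∧ Cls ds n (2 * R) (rotIm z P) := by
  induction ds generalizing P with
  | nil =>
    obtain ⟨a, rfl⟩ := hP
    exact ⟨⟨a, rotRe_C z a⟩, ⟨0, by rw [rotIm_C, C_0]⟩⟩
  | cons d ds ih =>
    obtain ⟨f, G, hf, hG, rfl⟩ := hP
    constructor
    · have := cls_cons ds (ι := Fin R ⊕ Fin R) d n (2 * R) (by simp; omega)
        (Sum.elim (fun k => rotRe (z ^ d) (f k)) (fun k => - rotIm (z ^ d) (f k)))
        (Sum.elim (fun k => rotRe z (G k)) (fun k => rotIm z (G k)))
        (by rintro (i | i)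
            · exact (natDegree_rotRe_le _ _).trans (hf i)
            · simp only [Sum.elim_inr, natDegree_neg]
              exact (natDegree_rotIm_le _ _).trans (hf i))
        (by rintro (i | i)
            · exact (ih (hG i)).1
            · exact (ih (hG i)).2)
      rw [Fintype.sum_sum_type, ← Finset.sum_add_distrib] at this
      convert this using 1
      rw [rotRe_sum]
      refine Finset.sum_congr rfl (fun k _ => ?_)
      simp only [Sum.elim_inl, Sum.elim_inr]
      rw [rotRe_mul, rotRe_expand, rotIm_expand, map_neg]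
      ring
    · have := cls_cons ds (ι := Fin R ⊕ Fin R) d n (2 * R) (by simp; omega)
        (Sum.elim (fun k => rotRe (z ^ d) (f k)) (fun k => rotIm (z ^ d) (f k)))
        (Sum.elim (fun k => rotIm z (G k)) (fun k => rotRe z (G k)))
        (by rintro (i | i)
            · exact (natDegree_rotRe_le _ _).trans (hf i)
            · exact (natDegree_rotIm_le _ _).trans (hf i))
        (by rintro (i | i)
            · exact (ih (hG i)).2
            · exact (ih (hG i)).1)
      rw [Fintype.sum_sum_type, ← Finset.sum_add_distrib] at this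
      convert this using 1
      rw [rotIm_sum]
      refine Finset.sum_congr rfl (fun k _ => ?_)
      simp only [Sum.elim_inl, Sum.elim_inr]
      rw [rotIm_mul, rotRe_expand, rotIm_expand]

theorem cls_xder (ds : List ℕ) {n R : ℕ} {P : ℝ[X]} (hP : Cls ds n R P) :
    Cls ds n (2 * R) (X * derivative P) := by
  induction ds generalizing P with
  | nil =>
    obtain ⟨a, rfl⟩ := hP
    exact ⟨0, by simp⟩
  | cons d ds ih =>
    obtain ⟨f, G, hf, hG, rfl⟩ := hP
    have := cls_cons ds (ι := Fin R ⊕ Fin R) d n (2 * R) (by simp; omega)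
      (Sum.elim (fun k => C (d : ℝ) * (X * derivative (f k))) f)
      (Sum.elim G (fun k => X * derivative (G k)))
      (by rintro (i | i)
          · simp only [Sum.elim_inl]
            refine (natDegree_C_mul_le _ _).trans ?_
            by_cases h0 : (f i).natDegree = 0
            · rw [eq_C_of_natDegree_eq_zero h0]; simp
            · refine natDegree_mul_le.trans ?_
              have h1 := natDegree_derivative_le (f i)
              have h2 := hf i
              have h3 : (X : ℝ[X]).natDegree ≤ 1 := natDegree_X_le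
              omega
          · exact hf i)
      (by rintro (i | i)
          · exact cls_mono ds le_rfl (by omega) (hG i)
          · exact ih (hG i))
    rw [Fintype.sum_sum_type, ← Finset.sum_add_distrib] at this
    convert this using 1
    rw [derivative_sum, Finset.mul_sum]
    refine Finset.sum_congr rfl (fun k _ => ?_)
    simp only [Sum.elim_inl, Sum.elim_inr]
    rw [derivative_mul, derivative_expand]
    rcases Nat.eq_zero_or_pos d with rfl | hd
    · simp
      ring
    · simp only [map_mul, expand_C, expand_X]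
      obtain ⟨m, rfl⟩ : ∃ m, d = m + 1 := ⟨d - 1, by omega⟩
      simp only [Nat.add_sub_cancel, map_natCast, pow_succ]
      ring

theorem cls_expand (ds : List ℕ) {n d : ℕ} (hd : d ∈ ds) {p : ℝ[X]} (hp : p.natDegree ≤ n) :
    Cls ds n 1 (expand ℝ d p) := by
  induction ds with
  | nil => simp at hd
  | cons d' ds ih =>
    rcases List.mem_cons.1 hd with rfl | hd
    · exact ⟨fun _ => p, fun _ => C 1, fun _ => hp, fun _ => cls_C ds n 1, by simp⟩
    · exact ⟨fun _ => 1, fun _ => expand ℝ d p, fun _ => by simp, fun _ => ih hd, by simp⟩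

theorem cls_natDegree (ds : List ℕ) {n R : ℕ} {P : ℝ[X]} (hP : Cls ds n R P) :
    P.natDegree ≤ n * ds.sum := by
  induction ds generalizing P with
  | nil =>
    obtain ⟨a, rfl⟩ := hP
    simp
  | cons d ds ih =>
    obtain ⟨f, G, hf, hG, rfl⟩ := hP
    refine natDegree_sum_le_of_forall_le _ _ (fun k _ => ?_)
    refine natDegree_mul_le.trans ?_
    rw [natDegree_expand, List.sum_cons, Nat.mul_add]
    exact Nat.add_le_add (Nat.mul_le_mul_right _ (hf k)) (ih (hG k))

/-- `Jp` stays in the class -/
theorem cls_Jp (ds : List ℕ) {n R : ℕ} {P Q : ℝ[X]} (d : ℕ)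
    (hP : Cls ds n R P) (hQ : Cls ds n R Q) :
    Cls ds (2 * n) (8 * R * R) (Jp d P Q) := by
  have h1 := cls_rot ds (zeta d) hP
  have h2 := cls_rot ds (zeta d) hQ
  have h3 := cls_sub ds (cls_mul ds h1.2 h2.1) (cls_mul ds h1.1 h2.2)
  have e1 : n + n = 2 * n := by ring
  have e2 : 2 * R * (2 * R) + 2 * R * (2 * R) = 8 * R * R := by ring
  rw [e1, e2] at h3
  exact h3

end SEC
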