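/- MP_5180ba_lc, piece R3: comparison of the counts. -/
import Pool.Agent.Lib_MP_5180ba_sec.Defs
set_option autoImplicit false
open Polynomial

namespace SEC

theorem cntP_le_natDegree (P : ℝ[X]) : cntP P ≤ P.natDegree := by
  classical
  unfold cntP
  exact (Multiset.card_le_card (Multiset.filter_le _ _)).trans (Polynomial.card_roots' P)

theorem posD_le_cntP (P : ℝ[X]) : posD P ≤ cntP P := by
  classical
  unfold cntP posD
  rw [← Multiset.toFinset_filter]
  exact Multiset.toFinset_card_le _

theorem cntP_le_cntO (d : ℕ) (hd : 1 ≤ d) (P : ℝ[X]) : cntP P ≤ cntO d P := by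
  classical
  by_cases hP : P = 0
  · subst hP
    simp [cntP]
  have hC : toC P ≠ 0 := by
    unfold toC
    exact (Polynomial.map_ne_zero_iff (algebraMap ℝ ℂ).injective).2 hP
  unfold cntP cntO
  have hle : P.roots.map (algebraMap ℝ ℂ) ≤ (toC P).roots := Polynomial.map_roots_le hC
  have h1 : P.roots.filter (fun x => 0 < x) ≤ P.roots.filter (InO d ∘ (algebraMap ℝ ℂ)) := by
    apply Multiset.monotone_filter_right
    intro x hx
    have hx' : (0 : ℝ) < x := hx
    refine ⟨?_, ?_⟩
    · simpa using hx'.ne'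
    · have : (algebraMap ℝ ℂ x).arg = 0 := Complex.arg_ofReal_of_nonneg hx'.le
      rw [this, abs_zero]
      have hd' : (0 : ℝ) < d := by exact_mod_cast hd
      exact div_pos Real.pi_pos hd'
  calc (P.roots.filter (fun x => 0 < x)).card
      ≤ (P.roots.filter (InO d ∘ (algebraMap ℝ ℂ))).card := Multiset.card_le_card h1
    _ = ((P.roots.map (algebraMap ℝ ℂ)).filter (InO d)).card := by
        rw [Multiset.filter_map, Multiset.card_map]
    _ ≤ ((toC P).roots.filter (InO d)).card :=
        Multiset.card_le_card (Multiset.filter_le_filter _ hle)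

/-- the closed sector of half angle `π / d`, `d ≥ 2`, lies in the open sector of
half angle `π / ⌊d / 2⌋` -/
theorem cntC_le_cntO (d : ℕ) (hd : 2 ≤ d) (P : ℝ[X]) : cntC d P ≤ cntO (d / 2) P := by
  classical
  unfold cntC cntO
  apply Multiset.card_le_card
  apply Multiset.monotone_filter_right
  intro x hx
  have hx' : InC d x := hx
  refine ⟨hx'.1, hx'.2.trans_lt ?_⟩
  have h1 : 0 < d / 2 := by omega
  have h2 : d / 2 < d := by omega
  have h1' : (0 : ℝ) < ((d / 2 : ℕ) : ℝ) := by exact_mod_cast h1
  have h2' : ((d / 2 : ℕ) : ℝ) < (d : ℝ) := by exact_mod_cast h2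
  exact div_lt_div_of_pos_left Real.pi_pos h1' h2'

end SEC
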