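/- MP_5180ba_lc, piece A1: integrals over the boundary of a strip; sign lemma. -/
import Mathlib
set_option autoImplicit false
open Filter Topology

namespace SEC

/-- Cauchy for the strip `|Im u| ≤ φ`. -/
theorem strip_integral (f : ℂ → ℂ) (φ : ℝ) (hφ : 0 < φ)
    (hd : ∀ u : ℂ, |u.im| ≤ φ → DifferentiableAt ℂ f u)
    (hp : ∀ ε : ℝ, 0 < ε → ∃ T0 : ℝ, ∀ u : ℂ, |u.im| ≤ φ → T0 ≤ |u.re| → ‖f u‖ ≤ ε) :
    Tendsto (fun T : ℝ => ∫ ξ in (-T)..T,
      (f ((ξ : ℂ) + φ * Complex.I) - f ((ξ : ℂ) - φ * Complex.I))) atTop (𝓝 0) := by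
  have hcu : Continuous fun ξ : ℝ => f ((ξ : ℂ) + φ * Complex.I) := by
    refine continuous_iff_continuousAt.2 fun ξ => ?_
    have h1 : DifferentiableAt ℂ f ((ξ : ℂ) + φ * Complex.I) :=
      hd _ (by simp [abs_of_pos hφ])
    exact ContinuousAt.comp (g := f) (f := fun ξ : ℝ => (ξ : ℂ) + φ * Complex.I) h1.continuousAt
      (by fun_prop)
  have hcl : Continuous fun ξ : ℝ => f ((ξ : ℂ) - φ * Complex.I) := by
    refine continuous_iff_continuousAt.2 fun ξ => ?_
    have h1 : DifferentiableAt ℂ f ((ξ : ℂ) - φ * Complex.I) :=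
      hd _ (by simp [abs_of_pos hφ])
    exact ContinuousAt.comp (g := f) (f := fun ξ : ℝ => (ξ : ℂ) - φ * Complex.I) h1.continuousAt
      (by fun_prop)
  rw [Metric.tendsto_atTop]
  intro ε hε
  obtain ⟨T0, hT0⟩ := hp (ε / (8 * φ)) (by positivity)
  refine ⟨max T0 0, fun T hT => ?_⟩
  have hT1 : T0 ≤ T := (le_max_left _ _).trans hT
  have hT2 : 0 ≤ T := (le_max_right _ _).trans hT
  rw [dist_zero_right, intervalIntegral.integral_sub (hcu.intervalIntegrable _ _)
    (hcl.intervalIntegrable _ _)]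
  have hrect := Complex.integral_boundary_rect_eq_zero_of_differentiableOn f
    (⟨-T, -φ⟩ : ℂ) (⟨T, φ⟩ : ℂ) (by
      rintro u ⟨-, hu⟩
      refine (hd u ?_).differentiableWithinAt
      have hu' : u.im ∈ Set.uIcc (-φ) φ := hu
      rw [Set.uIcc_of_le (by linarith)] at hu'
      exact abs_le.2 hu')
  dsimp only at hrect
  have e1 : ∀ ξ : ℝ, (ξ : ℂ) + ((-φ : ℝ) : ℂ) * Complex.I = (ξ : ℂ) - φ * Complex.I := by
    intro ξ
    push_cast
    ring
  simp only [e1] at hrect
  have b1 : ‖∫ y in (-φ)..φ, f ((T : ℂ) + y * Complex.I)‖ ≤ ε / (8 * φ) * |φ - -φ| := by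
    refine intervalIntegral.norm_integral_le_of_norm_le_const fun y hy => ?_
    rw [Set.uIoc_of_le (by linarith)] at hy
    refine hT0 _ ?_ ?_
    · simp only [Complex.add_im, Complex.ofReal_im, Complex.mul_im, Complex.ofReal_re, Complex.I_im,
        Complex.I_re, mul_one, mul_zero, zero_add, add_zero]
      exact abs_le.2 ⟨hy.1.le, hy.2⟩
    · simp only [Complex.add_re, Complex.ofReal_re, Complex.mul_re, Complex.I_re, mul_zero,
        Complex.ofReal_im, Complex.I_im, mul_one, sub_self, add_zero]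
      rw [abs_of_nonneg hT2]
      exact hT1
  have b2 : ‖∫ y in (-φ)..φ, f (((-T : ℝ) : ℂ) + y * Complex.I)‖ ≤ ε / (8 * φ) * |φ - -φ| := by
    refine intervalIntegral.norm_integral_le_of_norm_le_const fun y hy => ?_
    rw [Set.uIoc_of_le (by linarith)] at hy
    refine hT0 _ ?_ ?_
    · simp only [Complex.add_im, Complex.ofReal_im, Complex.mul_im, Complex.ofReal_re, Complex.I_im,
        Complex.I_re, mul_one, mul_zero, zero_add, add_zero]
      exact abs_le.2 ⟨hy.1.le, hy.2⟩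
    · simp only [Complex.add_re, Complex.ofReal_re, Complex.mul_re, Complex.I_re, mul_zero,
        Complex.ofReal_im, Complex.I_im, mul_one, sub_self, add_zero]
      rw [abs_neg, abs_of_nonneg hT2]
      exact hT1
  have e2 : (∫ ξ in (-T)..T, f ((ξ : ℂ) + φ * Complex.I)) -
      (∫ ξ in (-T)..T, f ((ξ : ℂ) - φ * Complex.I)) =
      Complex.I • (∫ y in (-φ)..φ, f ((T : ℂ) + y * Complex.I)) -
      Complex.I • (∫ y in (-φ)..φ, f (((-T : ℝ) : ℂ) + y * Complex.I)) := by
    linear_combination (-1 : ℂ) * hrect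
  rw [e2]
  refine (norm_sub_le _ _).trans_lt ?_
  rw [norm_smul, norm_smul, Complex.norm_I, one_mul, one_mul]
  have e3 : |φ - -φ| = 2 * φ := by
    rw [sub_neg_eq_add, abs_of_pos (by linarith)]
    ring
  rw [e3] at b1 b2
  have e4 : ε / (8 * φ) * (2 * φ) = ε / 4 := by
    field_simp
    ring
  rw [e4] at b1 b2
  linarith

/-- a continuous nonnegative function which is positive somewhere has integrals over
`[-T, T]` that do not tend to `0` -/
theorem no_tendsto_zero (g : ℝ → ℝ) (hg : Continuous g) (h0 : ∀ ξ, 0 ≤ g ξ)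
    (h1 : ∃ ξ, 0 < g ξ)
    (ht : Tendsto (fun T : ℝ => ∫ ξ in (-T)..T, g ξ) atTop (𝓝 0)) : False := by
  obtain ⟨ξ₀, hξ⟩ := h1
  have hT : 0 < |ξ₀| + 1 := by positivity
  have hc : 0 < ∫ ξ in (-(|ξ₀| + 1))..(|ξ₀| + 1), g ξ := by
    refine intervalIntegral.integral_pos (by linarith) hg.continuousOn (fun x _ => h0 x)
      ⟨ξ₀, ?_, hξ⟩
    exact ⟨by linarith [neg_abs_le ξ₀], by linarith [le_abs_self ξ₀]⟩
  have hev := (ht.eventually_lt_const hc).and (eventually_ge_atTop (|ξ₀| + 1))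
  obtain ⟨T, hT1, hT2⟩ := hev.exists
  refine absurd hT1 (not_lt.2 ?_)
  exact intervalIntegral.integral_mono_interval (by linarith) (by linarith) hT2
    (Eventually.of_forall fun x => h0 x) (hg.intervalIntegrable _ _)

end SEC
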