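/- MP_5180ba_lc, piece A2: factorisations and the growth of rational functions. -/
import Pool.Agent.Lib_MP_5180ba_sec.Defs
set_option autoImplicit false
open Polynomial Filter Topology

namespace SEC

open Classical in
/-- split off the roots with property `p` -/
theorem split_roots (P : ℂ[X]) (hP : P ≠ 0) (p : ℂ → Prop) :
    ∃ Q : ℂ[X], Q ≠ 0 ∧ P = ((P.roots.filter p).map (fun x => X - C x)).prod * Q ∧
      Q.natDegree + (P.roots.filter p).card = P.natDegree ∧
      ∀ x, p x → Q.eval x ≠ 0 := by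
  set s := P.roots.filter p with hs
  obtain ⟨Q, hQ⟩ := (Multiset.prod_X_sub_C_dvd_iff_le_roots hP s).2 (Multiset.filter_le _ _)
  have hm0 : (s.map (fun x => X - C x)).prod ≠ 0 := by
    intro h
    rw [h, zero_mul] at hQ
    exact hP hQ
  have hQ0 : Q ≠ 0 := by
    rintro rfl
    rw [mul_zero] at hQ
    exact hP hQ
  refine ⟨Q, hQ0, hQ, ?_, ?_⟩
  · have h1 := congrArg Polynomial.natDegree hQ
    rw [natDegree_mul hm0 hQ0, natDegree_multiset_prod_X_sub_C_eq_card] at h1
    rw [h1, add_comm]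
  · intro x hx h0
    have h1 : P.roots = s + Q.roots := by
      conv_lhs => rw [hQ]
      rw [roots_mul (by rw [← hQ]; exact hP), roots_multiset_prod_X_sub_C]
    have h2 : P.roots.filter p = s + Q.roots.filter p := by
      conv_lhs => rw [h1]
      rw [Multiset.filter_add]
      congr 1
      rw [hs, Multiset.filter_filter]
      simp
    have h3 : Q.roots.filter p = 0 := by
      rw [← hs] at h2
      exact (add_eq_left.1 h2.symm)
    have h4 : x ∈ Q.roots.filter p :=
      Multiset.mem_filter.2 ⟨(mem_roots hQ0).2 h0, hx⟩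
    rw [h3] at h4
    exact absurd h4 (Multiset.notMem_zero x)

/-- write `Q = X ^ a * Q0` with `Q0 (0) ≠ 0` -/
theorem split_zero (Q : ℂ[X]) (hQ : Q ≠ 0) :
    ∃ (a : ℕ) (Q0 : ℂ[X]), Q0 ≠ 0 ∧ Q = X ^ a * Q0 ∧ Q0.eval 0 ≠ 0 ∧
      a + Q0.natDegree = Q.natDegree := by
  obtain ⟨Q0, h1, h2⟩ := exists_eq_pow_rootMultiplicity_mul_and_not_dvd Q hQ 0
  have hQ0 : Q0 ≠ 0 := by
    rintro rfl
    exact h2 (dvd_zero _)
  rw [C_0, sub_zero] at h1 h2
  refine ⟨rootMultiplicity 0 Q, Q0, hQ0, h1, ?_, ?_⟩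
  · intro h
    refine h2 ?_
    have h3 : (X - C (0 : ℂ)) ∣ Q0 := dvd_iff_isRoot.2 h
    rwa [C_0, sub_zero] at h3
  · have h3 := congrArg Polynomial.natDegree h1
    rw [natDegree_mul (pow_ne_zero _ X_ne_zero) hQ0, natDegree_X_pow] at h3
    exact h3.symm

/-- if `A (0) = 0`, `B (0) ≠ 0` and `deg A < deg B`, then `A (e ^ u) / B (e ^ u)` tends to `0`
for `|Re u| → ∞` -/
theorem rational_decay (A B : ℂ[X]) (hA : A.eval 0 = 0) (hB : B.eval 0 ≠ 0)
    (hAB : A.natDegree < B.natDegree) (ε : ℝ) (hε : 0 < ε) :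
    ∃ T0 : ℝ, ∀ u : ℂ, T0 ≤ |u.re| →
      ‖A.eval (Complex.exp u) / B.eval (Complex.exp u)‖ ≤ ε := by
  have hB0 : B ≠ 0 := by
    rintro rfl
    simp at hB
  obtain ⟨k, hk⟩ : ∃ k, B.natDegree = A.natDegree + (k + 1) :=
    ⟨B.natDegree - A.natDegree - 1, by omega⟩
  -- near zero
  have c1 : ContinuousAt (fun z => A.eval z / B.eval z) 0 :=
    A.continuous.continuousAt.div B.continuous.continuousAt hB
  have c2 : ContinuousAt (fun z => A.reverse.eval z / B.reverse.eval z * z ^ (k + 1)) 0 := by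
    refine ContinuousAt.mul (A.reverse.continuous.continuousAt.div
      B.reverse.continuous.continuousAt ?_) (by fun_prop)
    rw [← coeff_zero_eq_eval_zero, coeff_zero_reverse]
    exact leadingCoeff_ne_zero.2 hB0
  obtain ⟨δ₁, hδ₁, h1⟩ := Metric.continuousAt_iff.1 c1 ε hε
  obtain ⟨δ₂, hδ₂, h2⟩ := Metric.continuousAt_iff.1 c2 ε hε
  have hm : 0 < min δ₁ δ₂ / 2 := by positivity
  refine ⟨-Real.log (min δ₁ δ₂ / 2), fun u hu => ?_⟩
  have hexp : Real.exp (-|u.re|) < min δ₁ δ₂ := by
    have h3 : Real.exp (-|u.re|) ≤ min δ₁ δ₂ / 2 := by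
      rw [← Real.exp_log hm]
      exact Real.exp_le_exp.2 (by linarith)
    have h4 : 0 < min δ₁ δ₂ := by positivity
    linarith
  rcases le_total 0 u.re with hr | hr
  · have hw : ‖Complex.exp (-u)‖ < δ₂ := by
      rw [Complex.norm_exp, Complex.neg_re, ← abs_of_nonneg hr]
      exact hexp.trans_le (min_le_right _ _)
    have h3 := h2 (x := Complex.exp (-u)) (by rwa [dist_zero_right])
    rw [zero_pow (Nat.succ_ne_zero k), mul_zero, dist_zero_right] at h3
    have key : A.eval (Complex.exp u) / B.eval (Complex.exp u) =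
        A.reverse.eval (Complex.exp (-u)) / B.reverse.eval (Complex.exp (-u)) *
          Complex.exp (-u) ^ (k + 1) := by
      have e1 : ∀ P : ℂ[X], P.eval (Complex.exp u) =
          P.reverse.eval (Complex.exp (-u)) * Complex.exp u ^ P.natDegree := by
        intro P
        letI : Invertible (Complex.exp u) := invertibleOfNonzero (Complex.exp_ne_zero u)
        have h4 := eval₂_reverse_mul_pow (RingHom.id ℂ) (Complex.exp u) P
        rw [eval₂_id, eval₂_id, invOf_eq_inv, ← Complex.exp_neg] at h4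
        exact h4.symm
      rw [e1 A, e1 B, hk, pow_add, Complex.exp_neg, inv_pow]
      have h5 := Complex.exp_ne_zero u
      by_cases h6 : B.reverse.eval (Complex.exp u)⁻¹ = 0
      · rw [h6]
        simp
      · field_simp
    rw [key]
    exact h3.le
  · have hw : ‖Complex.exp u‖ < δ₁ := by
      rw [Complex.norm_exp]
      rw [abs_of_nonpos hr, neg_neg] at hexp
      exact hexp.trans_le (min_le_left _ _)
    have h3 := h1 (x := Complex.exp u) (by rwa [dist_zero_right])
    rw [hA, zero_div, dist_zero_right] at h3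
    exact h3.le

end SEC
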