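/- MP_5180ba_lc, piece A3: reality and sign of the products on the negative axis. -/
import Pool.Agent.Lib_MP_5180ba_sec.Defs
set_option autoImplicit false
open Polynomial

namespace SEC

private lemma InO_conj (d : ℕ) (x : ℂ) : InO d (starRingEnd ℂ x) ↔ InO d x := by
  have h : |(starRingEnd ℂ x).arg| = |x.arg| := by
    rw [Complex.arg_conj]
    split_ifs with h1
    · rw [h1]
    · rw [abs_neg]
  unfold InO
  rw [h]
  simp

private lemma toC_map_conj (F : ℝ[X]) : (toC F).map (starRingEnd ℂ) = toC F := by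
  unfold toC
  rw [Polynomial.map_map]
  congr 1
  ext x
  simp

open Classical in
/-- the multiset of the zeros of a real polynomial in the open sector is closed under
conjugation -/
theorem filter_conj (d : ℕ) (F : ℝ[X]) :
    ((toC F).roots.filter (InO d)).map (starRingEnd ℂ) = (toC F).roots.filter (InO d) := by
  have h1 : (toC F).roots.map (starRingEnd ℂ) = (toC F).roots := by
    have h2 := (IsAlgClosed.splits (toC F)).roots_map (starRingEnd ℂ)
    rw [toC_map_conj] at h2
    exact h2.symm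
  have h3 : (toC F).roots.filter (InO d) =
      ((toC F).roots.map (starRingEnd ℂ)).filter (InO d) := by rw [h1]
  rw [Multiset.filter_map] at h3
  have h4 : (toC F).roots.filter (InO d ∘ (starRingEnd ℂ)) =
      (toC F).roots.filter (InO d) := by
    apply Multiset.filter_congr
    intro x _
    exact InO_conj d x
  rw [h4] at h3
  exact h3.symm

/-- a continuous function without zero on a convex set has constant sign -/
private lemma const_sign (s : Set ℝ) (hs : Convex ℝ s) (v : ℝ → ℝ) (hv : Continuous v)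
    (h0 : ∀ t ∈ s, v t ≠ 0) :
    ∃ σ : ℝ, (σ = 1 ∨ σ = -1) ∧ ∀ t ∈ s, 0 < σ * v t := by
  by_cases hpos : ∀ t ∈ s, 0 < v t
  · exact ⟨1, Or.inl rfl, fun t ht => by rw [one_mul]; exact hpos t ht⟩
  · push Not at hpos
    obtain ⟨a, ha, hva⟩ := hpos
    have hva' : v a < 0 := lt_of_le_of_ne hva (h0 a ha)
    refine ⟨-1, Or.inr rfl, fun t ht => ?_⟩
    by_contra hc
    have hvt : 0 < v t := by
      have h1 : 0 ≤ v t := by linarith
      exact lt_of_le_of_ne h1 (Ne.symm (h0 t ht))
    have himg : (0 : ℝ) ∈ v '' s := by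
      have hpre : IsPreconnected s := hs.isPreconnected
      have := hpre.intermediate_value ha ht hv.continuousOn
      exact this ⟨hva'.le, hvt.le⟩
    obtain ⟨u, hu, hvu⟩ := himg
    exact h0 u hu hvu

/-- `x ^ d` is not a negative real number for `x` in the open sector -/
private lemma InO_pow_ne (d : ℕ) (hd : 1 ≤ d) (x : ℂ) (hx : InO d x) (t : ℝ) (ht : t < 0) :
    (t : ℂ) ≠ x ^ d := by
  intro h
  obtain ⟨hx0, hx1⟩ := hx
  have hdpos : (0 : ℝ) < d := by exact_mod_cast hd
  have h1 : |(d : ℝ) * x.arg| < Real.pi := by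
    rw [abs_mul, abs_of_pos hdpos]
    calc (d : ℝ) * |x.arg| < d * (Real.pi / d) := by
          exact mul_lt_mul_of_pos_left hx1 hdpos
      _ = Real.pi := by field_simp
  have h2 : (x ^ d).arg = (d : ℝ) * x.arg := by
    have h3 : x ^ d = ((‖x‖ ^ d : ℝ) : ℂ) *
        (Complex.cos ((d * x.arg : ℝ) : ℂ) + Complex.sin ((d * x.arg : ℝ) : ℂ) * Complex.I) := by
      conv_lhs => rw [← Complex.norm_mul_cos_add_sin_mul_I x]
      rw [mul_pow, Complex.cos_add_sin_mul_I_pow]
      push_cast
      ring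
    rw [h3, Complex.arg_mul_cos_add_sin_mul_I (by positivity)]
    rw [abs_lt] at h1
    exact ⟨h1.1, h1.2.le⟩
  have h4 : (x ^ d).arg = Real.pi := by
    rw [← h]
    exact Complex.arg_ofReal_of_neg ht
  rw [h2] at h4
  rw [h4, abs_of_pos Real.pi_pos] at h1
  exact lt_irrefl _ h1

open Classical in
/-- `w (t) = ∏ (t - x ^ d)` over the zeros of `F` in the open sector is real, without zero and
of constant sign for `t < 0` (here `t = - r ^ d`, `r > 0`) -/
theorem omega_sign (d : ℕ) (hd : 1 ≤ d) (F : ℝ[X]) :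
    ∃ (σ : ℝ) (v : ℝ → ℝ), (σ = 1 ∨ σ = -1) ∧ (∀ t < 0, 0 < σ * v t) ∧
      ∀ t : ℝ, (((toC F).roots.filter (InO d)).map (fun x => (t : ℂ) - x ^ d)).prod
        = (v t : ℂ) := by
  set S : Multiset ℂ := (toC F).roots.filter (InO d) with hS
  have hSc : S.map (starRingEnd ℂ) = S := filter_conj d F
  set w : ℝ → ℂ := fun t => (S.map (fun x => (t : ℂ) - x ^ d)).prod with hw
  have hreal : ∀ t : ℝ, w t = (((w t).re : ℝ) : ℂ) := by
    intro t
    have h1 : (starRingEnd ℂ) (w t) = w t := by
      simp only [hw]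
      rw [map_multiset_prod, Multiset.map_map]
      have h2 : S.map ((starRingEnd ℂ) ∘ fun x => (t : ℂ) - x ^ d) =
          (S.map (starRingEnd ℂ)).map (fun x => (t : ℂ) - x ^ d) := by
        rw [Multiset.map_map]
        apply Multiset.map_congr rfl
        intro x _
        simp
      rw [h2, hSc]
    exact (Complex.conj_eq_iff_re.mp h1).symm
  have hcont : Continuous (fun t : ℝ => (w t).re) := by
    apply Complex.continuous_re.comp
    simp only [hw]
    apply continuous_multiset_prod
    intro x _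
    fun_prop
  have hne : ∀ t ∈ Set.Iio (0 : ℝ), (w t).re ≠ 0 := by
    intro t ht h0
    have h1 : w t = 0 := by rw [hreal t, h0]; simp
    simp only [hw] at h1
    rw [Multiset.prod_eq_zero_iff] at h1
    rw [Multiset.mem_map] at h1
    obtain ⟨x, hx, hx2⟩ := h1
    rw [hS, Multiset.mem_filter] at hx
    exact InO_pow_ne d hd x hx.2 t ht (sub_eq_zero.mp hx2)
  obtain ⟨σ, hσ, hσ2⟩ := const_sign (Set.Iio 0) (convex_Iio 0) _ hcont hne
  exact ⟨σ, fun t => (w t).re, hσ, fun t ht => hσ2 t ht, fun t => hreal t⟩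

/-- the product of `(r - ρ) (ρ ^ d - r ^ d)`, times the sign `(-1) ^ card`, is nonnegative -/
private lemma prod_sign (d : ℕ) (s : Multiset ℝ) (hs : ∀ ρ ∈ s, 0 < ρ) (r : ℝ) (hr : 0 < r) :
    0 ≤ (-1) ^ (Multiset.card s) * ((s.map (fun ρ => r - ρ)).prod *
      (s.map (fun ρ => ρ ^ d - r ^ d)).prod) := by
  induction s using Multiset.induction_on with
  | empty => simp
  | cons a s ih =>
    have ih' := ih (fun ρ hρ => hs ρ (Multiset.mem_cons_of_mem hρ))
    have ha : 0 < a := hs a (Multiset.mem_cons_self a s)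
    rw [Multiset.map_cons, Multiset.map_cons, Multiset.prod_cons, Multiset.prod_cons,
      Multiset.card_cons, pow_succ]
    have h1 : 0 ≤ -((r - a) * (a ^ d - r ^ d)) := by
      rcases le_total r a with h | h
      · have h2 : r ^ d ≤ a ^ d := pow_le_pow_left₀ hr.le h d
        nlinarith [mul_nonneg (sub_nonneg.mpr h) (sub_nonneg.mpr h2)]
      · have h2 : a ^ d ≤ r ^ d := pow_le_pow_left₀ ha.le h d
        nlinarith [mul_nonneg (sub_nonneg.mpr h) (sub_nonneg.mpr h2)]
    have h3 := mul_nonneg h1 ih'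
    calc (0 : ℝ) ≤ _ := h3
      _ = _ := by ring

/-- `J (r) * ∏ (ρ ^ d - r ^ d)` over the positive roots `ρ` of `J` has constant sign -/
theorem Jq_sign (d : ℕ) (hd : 1 ≤ d) (J : ℝ[X]) (hJ : J ≠ 0) :
    ∃ σ : ℝ, (σ = 1 ∨ σ = -1) ∧ ∀ r : ℝ, 0 < r →
      0 ≤ σ * (J.eval r * ((J.roots.filter (fun x => 0 < x)).map
        (fun ρ => ρ ^ d - r ^ d)).prod) := by
  set s : Multiset ℝ := J.roots.filter (fun x => 0 < x) with hs
  have hle : s ≤ J.roots := Multiset.filter_le _ _
  obtain ⟨K, hK⟩ := (Multiset.prod_X_sub_C_dvd_iff_le_roots hJ s).mpr hle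
  have hprod : (s.map (fun a => (X : ℝ[X]) - C a)).prod ≠ 0 := by
    intro h
    rw [h, zero_mul] at hK
    exact hJ hK
  have hK0 : K ≠ 0 := by
    intro h
    rw [h, mul_zero] at hK
    exact hJ hK
  have hKne : ∀ r ∈ Set.Ioi (0 : ℝ), K.eval r ≠ 0 := by
    intro r hr h0
    have h1 : J.roots = s + K.roots := by
      conv_lhs => rw [hK]
      rw [Polynomial.roots_mul (mul_ne_zero hprod hK0), Polynomial.roots_multiset_prod_X_sub_C]
    have h2 : Multiset.count r J.roots = Multiset.count r s + Multiset.count r K.roots := by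
      rw [h1, Multiset.count_add]
    have h3 : Multiset.count r s = Multiset.count r J.roots := by
      rw [hs]
      exact Multiset.count_filter_of_pos hr
    have h4 : 0 < Multiset.count r K.roots := by
      rw [Multiset.count_pos, Polynomial.mem_roots hK0]
      exact h0
    omega
  obtain ⟨σ, hσ, hσ2⟩ := const_sign (Set.Ioi 0) (convex_Ioi 0) (fun r => K.eval r)
    K.continuous hKne
  have hcard : ((-1 : ℝ) ^ (Multiset.card s)) = 1 ∨ ((-1 : ℝ) ^ (Multiset.card s)) = -1 :=
    neg_one_pow_eq_or ℝ _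
  refine ⟨σ * (-1) ^ (Multiset.card s), ?_, fun r hr => ?_⟩
  · rcases hσ with h | h <;> rcases hcard with h' | h' <;> rw [h, h'] <;> norm_num
  · have h1 : J.eval r = (s.map (fun ρ => r - ρ)).prod * K.eval r := by
      conv_lhs => rw [hK]
      rw [Polynomial.eval_mul, Polynomial.eval_multiset_prod, Multiset.map_map]
      congr 2
      apply Multiset.map_congr rfl
      intro x _
      simp
    have h2 := prod_sign d s (fun ρ hρ => (Multiset.mem_filter.mp hρ).2) r hr
    have h3 := hσ2 r hr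
    have h4 := mul_nonneg h3.le h2
    rw [h1]
    calc (0 : ℝ) ≤ _ := h4
      _ = _ := by ring

/-- `∏ (t - y ^ d) (t - conj y ^ d)` is real and nonnegative for real `t` -/
theorem RRbar (d : ℕ) (s : Multiset ℂ) (t : ℝ) :
    ∃ v : ℝ, 0 ≤ v ∧
      (s.map (fun y => (t : ℂ) - y ^ d)).prod *
        (s.map (fun y => (t : ℂ) - (starRingEnd ℂ y) ^ d)).prod = (v : ℂ) ∧
      ((∀ y ∈ s, (t : ℂ) ≠ y ^ d) → 0 < v) := by
  induction s using Multiset.induction_on with
  | empty => exact ⟨1, by norm_num, by simp, fun _ => by norm_num⟩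
  | cons a s ih =>
    obtain ⟨v, hv, hv2, hv3⟩ := ih
    refine ⟨Complex.normSq ((t : ℂ) - a ^ d) * v, mul_nonneg (Complex.normSq_nonneg _) hv,
      ?_, fun h => ?_⟩
    · rw [Multiset.map_cons, Multiset.map_cons, Multiset.prod_cons, Multiset.prod_cons]
      have h1 : ((Complex.normSq ((t : ℂ) - a ^ d) : ℝ) : ℂ) =
          ((t : ℂ) - a ^ d) * ((t : ℂ) - (starRingEnd ℂ a) ^ d) := by
        rw [Complex.normSq_eq_conj_mul_self]
        simp
        ring
      rw [Complex.ofReal_mul, h1, ← hv2]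
      ring
    · apply mul_pos
      · rw [Complex.normSq_pos]
        exact sub_ne_zero.mpr (h a (Multiset.mem_cons_self a s))
      · exact hv3 (fun y hy => h y (Multiset.mem_cons_of_mem hy))

end SEC
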