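/- MP_5180ba_lc, piece A4: powers in sectors. -/
import Pool.Agent.Lib_MP_5180ba_sec.Defs
set_option autoImplicit false
open Polynomial Filter Topology

namespace SEC

/-- in the closed sector the `d`-th power determines a point of the open sector -/
theorem pow_inj (d : ℕ) (hd : 1 ≤ d) (w x : ℂ) (hw : InC d w) (hx : InO d x)
    (h : w ^ d = x ^ d) : w = x := by
  have hd' : (0 : ℝ) < d := by exact_mod_cast hd
  have h1 : Complex.exp ((d : ℂ) * Complex.log w) = Complex.exp ((d : ℂ) * Complex.log x) := by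
    rw [Complex.exp_nat_mul, Complex.exp_nat_mul, Complex.exp_log hw.1, Complex.exp_log hx.1, h]
  obtain ⟨n, hn⟩ := Complex.exp_eq_exp_iff_exists_int.1 h1
  have h2 : (d : ℝ) * w.arg = d * x.arg + n * (2 * Real.pi) := by
    have h3 := congrArg Complex.im hn
    simpa [Complex.log_im, Complex.mul_im] using h3
  have hw2 : |(d : ℝ) * w.arg| ≤ Real.pi := by
    rw [abs_mul, abs_of_pos hd']
    calc (d : ℝ) * |w.arg| ≤ d * (Real.pi / d) := mul_le_mul_of_nonneg_left hw.2 hd'.le
      _ = Real.pi := by field_simp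
  have hx2 : |(d : ℝ) * x.arg| < Real.pi := by
    rw [abs_mul, abs_of_pos hd']
    calc (d : ℝ) * |x.arg| < d * (Real.pi / d) := mul_lt_mul_of_pos_left hx.2 hd'
      _ = Real.pi := by field_simp
  have hn0 : n = 0 := by
    have hp := Real.pi_pos
    rw [abs_le] at hw2
    rw [abs_lt] at hx2
    have h4 : (n : ℝ) < 1 := by
      by_contra hcon
      push Not at hcon
      nlinarith [hw2.1, hw2.2, hx2.1, hx2.2]
    have h5 : (-1 : ℝ) < n := by
      by_contra hcon
      push Not at hcon
      nlinarith [hw2.1, hw2.2, hx2.1, hx2.2]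
    have h6 : n < 1 := by exact_mod_cast h4
    have h7 : -1 < n := by exact_mod_cast h5
    omega
  rw [hn0] at hn
  have h3 : Complex.log w = Complex.log x := by
    have hdc : (d : ℂ) ≠ 0 := by
      have : d ≠ 0 := by omega
      exact_mod_cast this
    have h4 : (d : ℂ) * Complex.log w = (d : ℂ) * Complex.log x := by simpa using hn
    exact mul_left_cancel₀ hdc h4
  rw [← Complex.exp_log hw.1, ← Complex.exp_log hx.1, h3]

private theorem LA4_one (d : ℕ) (hd : 1 ≤ d) (x : ℂ) :
    ∃ Q : ℂ[X], Q ≠ 0 ∧ (X : ℂ[X]) ^ d - C (x ^ d) = (X - C x) * Q ∧ Q.natDegree + 1 = d ∧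
      Q.eval x = d * x ^ (d - 1) := by
  have h1 : (X : ℂ[X]) ^ d - C (x ^ d) = (X - C x) *
      ∑ i ∈ Finset.range d, (X : ℂ[X]) ^ i * (C x) ^ (d - 1 - i) := by
    rw [(Commute.all (X : ℂ[X]) (C x)).mul_geom_sum₂, C_pow]
  have h2 : (X : ℂ[X]) ^ d - C (x ^ d) ≠ 0 := X_pow_sub_C_ne_zero (by omega) _
  have h3 : (∑ i ∈ Finset.range d, (X : ℂ[X]) ^ i * (C x) ^ (d - 1 - i)) ≠ 0 := by
    intro h0
    rw [h0, mul_zero] at h1
    exact h2 h1
  refine ⟨_, h3, h1, ?_, ?_⟩
  · have h4 := congrArg natDegree h1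
    rw [natDegree_X_pow_sub_C, natDegree_mul (X_sub_C_ne_zero x) h3, natDegree_X_sub_C] at h4
    omega
  · rw [eval_finsetSum]
    have : ∀ i ∈ Finset.range d, eval x ((X : ℂ[X]) ^ i * (C x) ^ (d - 1 - i)) = x ^ (d - 1) := by
      intro i hi
      rw [Finset.mem_range] at hi
      rw [eval_mul, eval_pow, eval_pow, eval_X, eval_C, ← pow_add]
      congr 1
      omega
    rw [Finset.sum_congr rfl this, Finset.sum_const, Finset.card_range, nsmul_eq_mul]

/-- `∏ (X ^ d - x ^ d) = ∏ (X - x) * Q`, over a multiset of points of the open sector;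
`Q` has no zero in the closed sector and none at `0`. -/
theorem prod_pow_open (d : ℕ) (hd : 1 ≤ d) (s : Multiset ℂ) (hs : ∀ x ∈ s, InO d x) :
    ∃ Q : ℂ[X], Q ≠ 0 ∧
      (s.map (fun x => (X : ℂ[X]) ^ d - C (x ^ d))).prod
        = (s.map (fun x => X - C x)).prod * Q ∧
      Q.natDegree + s.card = d * s.card ∧ Q.eval 0 ≠ 0 ∧ ∀ w, InC d w → Q.eval w ≠ 0 := by
  induction s using Multiset.induction_on with
  | empty =>
    refine ⟨1, one_ne_zero, by simp, by simp, by simp, fun w _ => by simp⟩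
  | cons a s ih =>
    obtain ⟨Q, h1, h2, h3, h4, h5⟩ := ih fun x hx => hs x (Multiset.mem_cons_of_mem hx)
    obtain ⟨P, k1, k2, k3, k4⟩ := LA4_one d hd a
    have ha : InO d a := hs a (Multiset.mem_cons_self a s)
    refine ⟨P * Q, mul_ne_zero k1 h1, ?_, ?_, ?_, ?_⟩
    · rw [Multiset.map_cons, Multiset.prod_cons, Multiset.map_cons, Multiset.prod_cons, h2, k2]
      ring
    · rw [natDegree_mul k1 h1, Multiset.card_cons]
      have : d * (s.card + 1) = d * s.card + d := by ring
      omega
    · rw [eval_mul]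
      refine mul_ne_zero ?_ h4
      intro h0
      have h6 := congrArg (eval 0) k2
      rw [eval_mul, h0, mul_zero, eval_sub, eval_pow, eval_X, eval_C, zero_pow (by omega),
        zero_sub, neg_eq_zero] at h6
      exact ha.1 (pow_eq_zero_iff (by omega) |>.1 h6)
    · intro w hw
      rw [eval_mul]
      refine mul_ne_zero ?_ (h5 w hw)
      by_cases hwa : w = a
      · rw [hwa, k4]
        refine mul_ne_zero ?_ (pow_ne_zero _ ha.1)
        have : d ≠ 0 := by omega
        exact_mod_cast this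
      · intro h0
        have h6 := congrArg (eval w) k2
        rw [eval_mul, h0, mul_zero, eval_sub, eval_pow, eval_X, eval_C, sub_eq_zero] at h6
        exact hwa (pow_inj d hd w a hw ha h6)

/-- the same without any condition on the points and without the last two claims -/
theorem prod_pow_any (d : ℕ) (hd : 1 ≤ d) (s : Multiset ℂ) :
    ∃ Q : ℂ[X], Q ≠ 0 ∧
      (s.map (fun x => (X : ℂ[X]) ^ d - C (x ^ d))).prod
        = (s.map (fun x => X - C x)).prod * Q ∧
      Q.natDegree + s.card = d * s.card := by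
  induction s using Multiset.induction_on with
  | empty =>
    refine ⟨1, one_ne_zero, by simp, by simp⟩
  | cons a s ih =>
    obtain ⟨Q, h1, h2, h3⟩ := ih
    obtain ⟨P, k1, k2, k3, k4⟩ := LA4_one d hd a
    refine ⟨P * Q, mul_ne_zero k1 h1, ?_, ?_⟩
    · rw [Multiset.map_cons, Multiset.prod_cons, Multiset.map_cons, Multiset.prod_cons, h2, k2]
      ring
    · rw [natDegree_mul k1 h1, Multiset.card_cons]
      have : d * (s.card + 1) = d * s.card + d := by ring
      omega

/-- `e ^ u` lies in the closed sector for `|Im u| ≤ π / d` -/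
theorem exp_inC (d : ℕ) (hd : 2 ≤ d) (u : ℂ) (hu : |u.im| ≤ Real.pi / d) :
    InC d (Complex.exp u) := by
  refine ⟨Complex.exp_ne_zero u, ?_⟩
  have hp := Real.pi_pos
  have hd2 : (2 : ℝ) ≤ d := by exact_mod_cast hd
  have h1 : Real.pi / d ≤ Real.pi / 2 := by
    apply div_le_div_of_nonneg_left hp.le (by norm_num) hd2
  have h2 := abs_le.1 (hu.trans h1)
  have h3 : (Complex.exp u).arg = u.im := by
    rw [← Complex.log_im, Complex.log_exp (by linarith [h2.1]) (by linarith [h2.2])]
  rw [h3]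
  exact hu

end SEC
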