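/- MP_5180ba_lc: Lemma W (a), the main counting lemma. -/
import Pool.Agent.Lib_MP_5180ba_sec.Rot
import Pool.Agent.Lib_MP_5180ba_sec.LA1
import Pool.Agent.Lib_MP_5180ba_sec.LA2
import Pool.Agent.Lib_MP_5180ba_sec.LA3
import Pool.Agent.Lib_MP_5180ba_sec.LA4
set_option autoImplicit false
open Polynomial Filter Topology

namespace SEC

theorem toC_natDegree (P : ℝ[X]) : (toC P).natDegree = P.natDegree :=
  natDegree_map _

theorem toC_ne_zero {P : ℝ[X]} (h : P ≠ 0) : toC P ≠ 0 := by
  unfold toC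
  exact (Polynomial.map_ne_zero_iff (algebraMap ℝ ℂ).injective).2 h

theorem toC_eval_conj (P : ℝ[X]) (x : ℂ) :
    (toC P).eval (starRingEnd ℂ x) = starRingEnd ℂ ((toC P).eval x) := by
  unfold toC
  rw [eval_map_algebraMap, eval_map_algebraMap, aeval_conj]

theorem Jp_at_one (F G : ℝ[X]) : Jp 1 F G = 0 := by
  have h : zeta 1 = -1 := by
    have := zeta_pow 1 le_rfl
    simpa using this
  unfold Jp
  rw [h, rotIm_neg_one, rotIm_neg_one]
  simp

/-- the upper and lower boundary of the strip in the coordinate `x = e ^ u` -/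
theorem exp_upper (d : ℕ) (ξ : ℝ) :
    Complex.exp ((ξ : ℂ) + ((Real.pi / d : ℝ) : ℂ) * Complex.I)
      = zeta d * ((Real.exp ξ : ℝ) : ℂ) := by
  unfold zeta
  rw [Complex.exp_add, mul_comm]
  congr 1
  · congr 1
    push_cast
    ring
  · exact (Complex.ofReal_exp ξ).symm

theorem exp_lower (d : ℕ) (ξ : ℝ) :
    Complex.exp ((ξ : ℂ) - ((Real.pi / d : ℝ) : ℂ) * Complex.I)
      = starRingEnd ℂ (zeta d * ((Real.exp ξ : ℝ) : ℂ)) := by
  rw [← exp_upper, ← Complex.exp_conj]
  congr 1
  simp only [map_add, map_mul, Complex.conj_ofReal, Complex.conj_I]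
  ring

theorem norm_zeta (d : ℕ) : ‖zeta d‖ = 1 := by
  unfold zeta
  have : Complex.I * ((Real.pi : ℂ) / (d : ℂ)) = ((Real.pi / d : ℝ) : ℂ) * Complex.I := by
    push_cast
    ring
  rw [this]
  exact Complex.norm_exp_ofReal_mul_I _

theorem prod_map_eval (s : Multiset ℂ) (f : ℂ → ℂ[X]) (x : ℂ) :
    ((s.map f).prod).eval x = (s.map (fun y => (f y).eval x)).prod := by
  induction s using Multiset.induction_on with
  | empty => simp
  | cons a s ih => simp [ih]

theorem natDegree_prod_map_le (d : ℕ) {α : Type*} (s : Multiset α) (f : α → ℂ[X])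
    (h : ∀ y ∈ s, (f y).natDegree ≤ d) : ((s.map f).prod).natDegree ≤ d * s.card := by
  induction s using Multiset.induction_on with
  | empty => simp
  | cons a s ih =>
    rw [Multiset.map_cons, Multiset.prod_cons, Multiset.card_cons]
    refine le_trans natDegree_mul_le ?_
    have h1 := h a (Multiset.mem_cons_self a s)
    have h2 := ih (fun y hy => h y (Multiset.mem_cons_of_mem hy))
    calc _ ≤ d + d * s.card := by omega
      _ = d * (s.card + 1) := by ring

/-- real part of the computation: difference of the boundary values -/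
theorem diff_formula (f1 f2 g h : ℂ) (c : ℝ) (hg : g ≠ 0)
    (h1 : f1 * g = (c : ℂ) * h) (h2 : f2 * starRingEnd ℂ g = (c : ℂ) * starRingEnd ℂ h) :
    (f1 - f2).im = 2 * c * (h * starRingEnd ℂ g).im / Complex.normSq g := by
  have hg' : starRingEnd ℂ g ≠ 0 := by
    intro h0
    exact hg ((map_eq_zero _).1 h0)
  have e1 : f1 = (c : ℂ) * (h / g) := by
    field_simp
    linear_combination h1
  have e2 : f2 = (c : ℂ) * starRingEnd ℂ (h / g) := by
    rw [map_div₀]
    field_simp
    linear_combination h2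
  rw [e1, e2, ← mul_sub]
  have e3 : (h / g - starRingEnd ℂ (h / g)) = ((2 * (h / g).im : ℝ) : ℂ) * Complex.I := by
    rw [Complex.sub_conj]
  rw [e3]
  have e4 : (h / g).im = (h * starRingEnd ℂ g).im / Complex.normSq g := by
    rw [Complex.div_im]
    simp only [Complex.mul_im, Complex.conj_re, Complex.conj_im]
    ring
  have e5 : ((c : ℂ) * (((2 * (h / g).im : ℝ) : ℂ) * Complex.I)).im = c * (2 * (h / g).im) := by
    rw [← mul_assoc, ← Complex.ofReal_mul, Complex.im_ofReal_mul, Complex.I_im, mul_one]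
  rw [e5, e4]
  ring

theorem lemW_a (d : ℕ) (hd : 1 ≤ d) (F G : ℝ[X]) (hF : F ≠ 0) (hG : G ≠ 0)
    (hJ : Jp d F G ≠ 0) :
    d * cntO d F ≤ F.natDegree + d * (2 * cntC d G + cntP (Jp d F G) + 1) := by
  classical
  -- the case `d = 1` is void
  have hd2 : 2 ≤ d := by
    rcases Nat.lt_or_ge d 2 with h | h
    · exfalso
      have h1 : d = 1 := by omega
      subst h1
      exact hJ (Jp_at_one F G)
    · exact h
  by_contra hcon
  rw [not_le] at hcon
  set J := Jp d F G with hJdef
  set sF : Multiset ℂ := (toC F).roots.filter (InO d) with hsF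
  set sG : Multiset ℂ := (toC G).roots.filter (InC d) with hsG
  set sJ : Multiset ℝ := J.roots.filter (fun x => 0 < x) with hsJ
  have hZ : cntO d F = sF.card := rfl
  have hY : cntC d G = sG.card := rfl
  have hM : cntP J = sJ.card := rfl
  rw [hZ, hY, hM] at hcon
  -- factorisations
  obtain ⟨Fo, hFo0, hFo, hFodeg, -⟩ := split_roots (toC F) (toC_ne_zero hF) (InO d)
  obtain ⟨Go, hGo0, hGo, hGodeg, hGonz⟩ := split_roots (toC G) (toC_ne_zero hG) (InC d)
  obtain ⟨a, G0, hG00, hG0, hG0z, hG0deg⟩ := split_zero Go hGo0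
  obtain ⟨W2, hW20, hW2, hW2deg, hW2z, hW2nz⟩ := prod_pow_open d hd sF (by
    intro x hx
    exact (Multiset.mem_filter.1 hx).2)
  obtain ⟨R2, hR20, hR2, hR2deg⟩ := prod_pow_any d hd sG
  rw [toC_natDegree] at hFodeg hGodeg
  rw [← hsF] at hFo hFodeg
  rw [← hsG] at hGo hGodeg
  set Rb : ℂ[X] := (sG.map (fun y => (X : ℂ[X]) ^ d - C ((starRingEnd ℂ y) ^ d))).prod with hRb
  set Q : ℂ[X] := (sJ.map (fun ρ : ℝ => (X : ℂ[X]) ^ d + C ((ρ : ℂ) ^ d))).prod with hQ
  have hRbdeg : Rb.natDegree ≤ d * sG.card := by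
    apply natDegree_prod_map_le
    intro y _
    exact le_of_eq (natDegree_X_pow_sub_C)
  have hQdeg : Q.natDegree ≤ d * sJ.card := by
    apply natDegree_prod_map_le
    intro y _
    exact le_of_eq (natDegree_X_pow_add_C)
  set k0 : ℕ := a / d + 1 with hk0
  have hk0a : a < d * k0 := by
    rw [hk0]
    have := Nat.lt_div_mul_add (a := a) (b := d) (by omega)
    calc a < a / d * d + d := this
      _ = d * (a / d + 1) := by ring
  have hk0b : d * k0 ≤ a + d := by
    rw [hk0]
    have := Nat.div_mul_le_self a d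
    calc d * (a / d + 1) = a / d * d + d := by ring
      _ ≤ a + d := by omega
  set b : ℕ := d * k0 - a with hb
  have hb1 : 1 ≤ b := by omega
  have hab : a + b = d * k0 := by omega
  set A : ℂ[X] := X ^ b * Fo * R2 * Rb * Q with hA
  set B : ℂ[X] := G0 * W2 with hB
  have hAz : A.eval 0 = 0 := by
    rw [hA]
    simp only [eval_mul, eval_pow, eval_X]
    rw [zero_pow (by omega)]
    ring
  have hBz : B.eval 0 ≠ 0 := by
    rw [hB, eval_mul]
    exact mul_ne_zero hG0z hW2z
  have hAB : A.natDegree < B.natDegree := by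
    have h1 : A.natDegree ≤ b + Fo.natDegree + R2.natDegree + d * sG.card + d * sJ.card := by
      rw [hA]
      refine le_trans natDegree_mul_le ?_
      refine Nat.add_le_add ?_ hQdeg
      refine le_trans natDegree_mul_le ?_
      refine Nat.add_le_add ?_ hRbdeg
      refine le_trans natDegree_mul_le ?_
      refine Nat.add_le_add ?_ le_rfl
      refine le_trans natDegree_mul_le ?_
      rw [natDegree_X_pow]
    have h2 : B.natDegree = G0.natDegree + W2.natDegree := by
      rw [hB]
      exact natDegree_mul hG00 hW20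
    rw [h2]
    have e1 : d * (2 * sG.card + sJ.card + 1) = 2 * (d * sG.card) + d * sJ.card + d := by ring
    rw [e1] at hcon
    omega
  -- the function in the strip
  set φ : ℝ := Real.pi / d with hφ
  have hdpos : (0 : ℝ) < d := by exact_mod_cast (by omega : 0 < d)
  have hφ0 : 0 < φ := div_pos Real.pi_pos hdpos
  set f : ℂ → ℂ := fun u => A.eval (Complex.exp u) / B.eval (Complex.exp u) with hf
  have hBnz : ∀ x : ℂ, InC d x → B.eval x ≠ 0 := by
    intro x hx
    rw [hB, eval_mul]
    refine mul_ne_zero ?_ (hW2nz x hx)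
    have h1 := hGonz x hx
    rw [hG0, eval_mul] at h1
    exact right_ne_zero_of_mul h1
  have hfd : ∀ u : ℂ, |u.im| ≤ φ → DifferentiableAt ℂ f u := by
    intro u hu
    have h1 : B.eval (Complex.exp u) ≠ 0 := hBnz _ (exp_inC d hd2 u hu)
    have h2 : DifferentiableAt ℂ (fun u => A.eval (Complex.exp u)) u :=
      (A.differentiable _).comp u (Complex.differentiable_exp u)
    have h3 : DifferentiableAt ℂ (fun u => B.eval (Complex.exp u)) u :=
      (B.differentiable _).comp u (Complex.differentiable_exp u)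
    exact h2.div h3 h1
  have hfp : ∀ ε : ℝ, 0 < ε → ∃ T0 : ℝ, ∀ u : ℂ, |u.im| ≤ φ → T0 ≤ |u.re| → ‖f u‖ ≤ ε := by
    intro ε hε
    obtain ⟨T0, hT0⟩ := rational_decay A B hAz hBz hAB ε hε
    exact ⟨T0, fun u _ hu => hT0 u hu⟩
  have hlim := strip_integral f φ hφ0 hfd hfp
  -- signs
  obtain ⟨σ1, v, hσ1, hv, hvprod⟩ := omega_sign d hd F
  obtain ⟨σ2, hσ2, hJsign⟩ := Jq_sign d hd J hJ
  rw [← hsF] at hvprod
  rw [← hsJ] at hJsign
  have hzd : zeta d ^ d = -1 := zeta_pow d hd
  -- the key identity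
  have key : ∀ x : ℂ, B.eval x ≠ 0 →
      A.eval x / B.eval x * ((toC G).eval x * (sF.map (fun y => x ^ d - y ^ d)).prod)
        = x ^ (d * k0) * (sG.map (fun y => x ^ d - y ^ d)).prod
            * (sG.map (fun y => x ^ d - (starRingEnd ℂ y) ^ d)).prod
            * (sJ.map (fun ρ : ℝ => x ^ d + (ρ : ℂ) ^ d)).prod * (toC F).eval x := by
    intro x hx
    have e1 : (sF.map (fun y => x ^ d - y ^ d)).prod
        = ((sF.map (fun y => (X : ℂ[X]) - C y)).prod).eval x * W2.eval x := by
      rw [← eval_mul, ← hW2, prod_map_eval]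
      simp
    have e2 : (sG.map (fun y => x ^ d - y ^ d)).prod
        = ((sG.map (fun y => (X : ℂ[X]) - C y)).prod).eval x * R2.eval x := by
      rw [← eval_mul, ← hR2, prod_map_eval]
      simp
    have e3 : (sG.map (fun y => x ^ d - (starRingEnd ℂ y) ^ d)).prod = Rb.eval x := by
      rw [hRb, prod_map_eval]
      simp
    have e4 : (sJ.map (fun ρ : ℝ => x ^ d + (ρ : ℂ) ^ d)).prod = Q.eval x := by
      rw [hQ]
      have h5 : ∀ s : Multiset ℝ, ((s.map (fun ρ : ℝ => (X : ℂ[X]) ^ d + C ((ρ : ℂ) ^ d))).prod).eval x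
          = (s.map (fun ρ : ℝ => x ^ d + (ρ : ℂ) ^ d)).prod := by
        intro s
        induction s using Multiset.induction_on with
        | empty => simp
        | cons a s ih =>
          rw [Multiset.map_cons, Multiset.prod_cons, Multiset.map_cons, Multiset.prod_cons,
            eval_mul, ih, eval_add, eval_pow, eval_X, eval_C]
      exact (h5 sJ).symm
    have e5 : (toC G).eval x = ((sG.map (fun y => (X : ℂ[X]) - C y)).prod).eval x
        * (x ^ a * G0.eval x) := by
      conv_lhs => rw [hGo, hG0]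
      simp [eval_mul]
    have e6 : (toC F).eval x = ((sF.map (fun y => (X : ℂ[X]) - C y)).prod).eval x * Fo.eval x := by
      conv_lhs => rw [hFo]
      simp [eval_mul]
    have e7 : B.eval x = G0.eval x * W2.eval x := by rw [hB, eval_mul]
    have e8 : A.eval x = x ^ b * Fo.eval x * R2.eval x * Rb.eval x * Q.eval x := by
      rw [hA]; simp [eval_mul]
    have hx' := hx
    rw [e7] at hx'
    rw [e1, e2, e3, e4, e5, e6, div_mul_eq_mul_div, div_eq_iff hx, e7, e8, ← hab, pow_add]
    ring
  -- bad radii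
  set S : Finset ℝ := (sG.map (fun y => ‖y‖)).toFinset with hS
  have hgS : ∀ r : ℝ, 0 < r → r ∉ S → (toC G).eval (zeta d * (r : ℂ)) ≠ 0 := by
    intro r hr hrS h0
    apply hrS
    rw [hS, Multiset.mem_toFinset, Multiset.mem_map]
    refine ⟨zeta d * (r : ℂ), ?_, ?_⟩
    · rw [hsG, Multiset.mem_filter]
      refine ⟨(mem_roots (toC_ne_zero hG)).2 h0, ?_⟩
      have h1 := exp_inC d hd2 ((Real.log r : ℂ) + ((Real.pi / d : ℝ) : ℂ) * Complex.I) (by
        simp
        rw [abs_of_pos (div_pos Real.pi_pos hdpos)])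
      rw [exp_upper, Real.exp_log hr] at h1
      exact h1
    · rw [norm_mul, norm_zeta, one_mul, Complex.norm_real, Real.norm_eq_abs, abs_of_pos hr]
  -- the difference of the boundary values
  set σ : ℝ := (-1) ^ k0 * σ1 * σ2 with hσ
  set g : ℝ → ℝ := fun ξ => σ * (f ((ξ : ℂ) + φ * Complex.I) - f ((ξ : ℂ) - φ * Complex.I)).im
    with hg
  have hform : ∀ ξ : ℝ, Real.exp ξ ∉ S → ∃ w : ℝ, 0 ≤ w ∧
      (J.eval (Real.exp ξ) ≠ 0 → 0 < w) ∧ g ξ = w := by
    intro ξ hξ
    set r : ℝ := Real.exp ξ with hr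
    have hr0 : 0 < r := Real.exp_pos ξ
    set x : ℂ := zeta d * (r : ℂ) with hx
    set t : ℝ := -(r ^ d) with ht
    have ht0 : t < 0 := by rw [ht]; exact neg_lt_zero.2 (pow_pos hr0 d)
    have hxd : x ^ d = (t : ℂ) := by
      rw [hx, mul_pow, hzd, ht]
      push_cast
      ring
    have hxcd : (starRingEnd ℂ x) ^ d = (t : ℂ) := by
      rw [← map_pow, hxd, Complex.conj_ofReal]
    have hup : Complex.exp ((ξ : ℂ) + φ * Complex.I) = x := exp_upper d ξ
    have hlo : Complex.exp ((ξ : ℂ) - φ * Complex.I) = starRingEnd ℂ x := exp_lower d ξ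
    have him : |((ξ : ℂ) + φ * Complex.I).im| ≤ φ := by
      simp
      rw [abs_of_pos hφ0]
    have him' : |((ξ : ℂ) - φ * Complex.I).im| ≤ φ := by
      simp
      rw [abs_of_pos hφ0]
    have hBx : B.eval x ≠ 0 := by
      rw [← hup]; exact hBnz _ (exp_inC d hd2 _ him)
    have hBx' : B.eval (starRingEnd ℂ x) ≠ 0 := by
      rw [← hlo]; exact hBnz _ (exp_inC d hd2 _ him')
    have k1 := key x hBx
    have k2 := key (starRingEnd ℂ x) hBx'
    obtain ⟨V, hV0, hV, hVpos⟩ := RRbar d sG t
    have hq : (sJ.map (fun ρ : ℝ => (t : ℂ) + (ρ : ℂ) ^ d)).prod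
        = (((sJ.map (fun ρ : ℝ => ρ ^ d - r ^ d)).prod : ℝ) : ℂ) := by
      have h5 : ∀ s : Multiset ℝ, (s.map (fun ρ : ℝ => (t : ℂ) + (ρ : ℂ) ^ d)).prod
          = (((s.map (fun ρ : ℝ => ρ ^ d - r ^ d)).prod : ℝ) : ℂ) := by
        intro s
        induction s using Multiset.induction_on with
        | empty => simp
        | cons a s ih =>
          rw [Multiset.map_cons, Multiset.prod_cons, Multiset.map_cons, Multiset.prod_cons, ih, ht]
          push_cast
          ring
      exact h5 sJ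
    set q : ℝ := (sJ.map (fun ρ : ℝ => ρ ^ d - r ^ d)).prod with hqdef
    rw [pow_mul, hxd, hvprod, hq] at k1
    rw [pow_mul, hxcd, hvprod, hq] at k2
    have hgx : (toC G).eval x ≠ 0 := hgS r hr0 hξ
    have hvt : σ1 * v t > 0 := hv t ht0
    have hvne : v t ≠ 0 := by
      intro h0
      rw [h0] at hvt
      simp at hvt
    have hvneC : ((v t : ℝ) : ℂ) ≠ 0 := by exact_mod_cast hvne
    set c : ℝ := t ^ k0 * V * q / v t with hc
    have hcv : (c : ℂ) * (v t : ℂ) = (t : ℂ) ^ k0 * V * q := by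
      have : c * v t = t ^ k0 * V * q := by rw [hc]; field_simp
      exact_mod_cast this
    have h1 : A.eval x / B.eval x * (toC G).eval x = (c : ℂ) * (toC F).eval x := by
      have : (A.eval x / B.eval x * (toC G).eval x) * (v t : ℂ)
          = ((t : ℂ) ^ k0 * V * q) * (toC F).eval x := by
        rw [← hV]
        linear_combination k1
      apply mul_right_cancel₀ hvneC
      rw [this]
      linear_combination (-(toC F).eval x) * hcv
    have h2 : A.eval (starRingEnd ℂ x) / B.eval (starRingEnd ℂ x)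
        * starRingEnd ℂ ((toC G).eval x) = (c : ℂ) * starRingEnd ℂ ((toC F).eval x) := by
      rw [toC_eval_conj, toC_eval_conj] at k2
      have : (A.eval (starRingEnd ℂ x) / B.eval (starRingEnd ℂ x)
          * starRingEnd ℂ ((toC G).eval x)) * (v t : ℂ)
          = ((t : ℂ) ^ k0 * V * q) * starRingEnd ℂ ((toC F).eval x) := by
        rw [← hV]
        linear_combination k2
      apply mul_right_cancel₀ hvneC
      rw [this]
      linear_combination (-(starRingEnd ℂ ((toC F).eval x))) * hcv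
    have h3 := diff_formula _ _ _ _ c hgx h1 h2
    have hJr : ((toC F).eval x * starRingEnd ℂ ((toC G).eval x)).im = J.eval r := by
      rw [hJdef, Jp_eval]
    rw [hJr] at h3
    have hnsq : 0 < Complex.normSq ((toC G).eval x) := Complex.normSq_pos.2 hgx
    have hgval : g ξ = σ * (2 * c * J.eval r / Complex.normSq ((toC G).eval x)) := by
      rw [hg]
      simp only [hf]
      rw [hup, hlo, h3]
    -- sign computation
    have hσ1sq : σ1 * σ1 = 1 := by rcases hσ1 with h | h <;> rw [h] <;> norm_num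
    have hσ2sq : σ2 * σ2 = 1 := by rcases hσ2 with h | h <;> rw [h] <;> norm_num
    have htk : (-1 : ℝ) ^ k0 * t ^ k0 = (r ^ d) ^ k0 := by
      rw [← mul_pow, ht]
      congr 1
      ring
    have hJs := hJsign r hr0
    rw [← hqdef] at hJs
    have hval : σ * (2 * c * J.eval r / Complex.normSq ((toC G).eval x))
        = 2 * (r ^ d) ^ k0 * V * (σ2 * (J.eval r * q)) * (σ1 * v t)
            / ((v t) ^ 2 * Complex.normSq ((toC G).eval x)) := by
      rw [hσ, hc, ← htk]
      field_simp
    have hpos2 : 0 < (v t) ^ 2 * Complex.normSq ((toC G).eval x) :=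
      mul_pos (by positivity) hnsq
    have hrk : 0 < (r ^ d) ^ k0 := pow_pos (pow_pos hr0 d) k0
    refine ⟨_, ?_, ?_, hgval.trans hval⟩
    · apply div_nonneg _ hpos2.le
      apply mul_nonneg _ hvt.le
      apply mul_nonneg _ hJs
      positivity
    · intro hJne
      have hq0 : q ≠ 0 := by
        rw [hqdef]
        intro h0
        rw [Multiset.prod_eq_zero_iff, Multiset.mem_map] at h0
        obtain ⟨ρ, hρ, hρ2⟩ := h0
        have hρ3 := Multiset.mem_filter.1 hρ
        have hρr : ρ = r := by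
          have h6 : ρ ^ d = r ^ d := by linarith
          exact (pow_left_inj₀ hρ3.2.le hr0.le (by omega)).1 h6
        apply hJne
        rw [← hρr]
        exact (mem_roots hJ).1 hρ3.1
      have hVp : 0 < V := by
        apply hVpos
        intro y hy h0
        apply hξ
        rw [hS, Multiset.mem_toFinset, Multiset.mem_map]
        refine ⟨y, hy, ?_⟩
        have h6 : ‖(t : ℂ)‖ = ‖y‖ ^ d := by rw [h0, norm_pow]
        rw [Complex.norm_real, Real.norm_eq_abs, ht, abs_neg, abs_of_pos (pow_pos hr0 d)] at h6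
        exact ((pow_left_inj₀ hr0.le (norm_nonneg y) (by omega)).1 h6).symm
      have hJs' : 0 < σ2 * (J.eval r * q) := by
        refine lt_of_le_of_ne hJs ?_
        have hσ2ne : σ2 ≠ 0 := by rcases hσ2 with h | h <;> rw [h] <;> norm_num
        exact (mul_ne_zero hσ2ne (mul_ne_zero hJne hq0)).symm
      apply div_pos _ hpos2
      apply mul_pos _ hvt
      apply mul_pos _ hJs'
      positivity
  -- continuity of g
  have hfc : ∀ s : ℝ, |s| ≤ φ → Continuous (fun ξ : ℝ => f ((ξ : ℂ) + s * Complex.I)) := by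
    intro s hs
    rw [continuous_iff_continuousAt]
    intro ξ
    have h1 : ContinuousAt f ((ξ : ℂ) + s * Complex.I) := by
      apply (hfd _ _).continuousAt
      simpa using hs
    have h2 : ContinuousAt (fun ξ : ℝ => (ξ : ℂ) + s * Complex.I) ξ := by
      apply Continuous.continuousAt
      fun_prop
    exact ContinuousAt.comp (f := fun ξ : ℝ => (ξ : ℂ) + s * Complex.I) h1 h2
  have hc1 : Continuous (fun ξ : ℝ => f ((ξ : ℂ) + φ * Complex.I)) :=
    hfc φ (by rw [abs_of_pos hφ0])
  have hc2 : Continuous (fun ξ : ℝ => f ((ξ : ℂ) - φ * Complex.I)) := by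
    have := hfc (-φ) (by rw [abs_neg, abs_of_pos hφ0])
    refine this.congr ?_
    intro ξ
    congr 1
    push_cast
    ring
  have hgc : Continuous g := by
    rw [hg]
    exact continuous_const.mul (Complex.continuous_im.comp (hc1.sub hc2))
  -- nonnegativity everywhere
  have hg0 : ∀ ξ, 0 ≤ g ξ := by
    have hfin : (Real.exp ⁻¹' (S : Set ℝ)).Finite :=
      Set.Finite.preimage (Real.exp_injective.injOn) S.finite_toSet
    have hdense : Dense (Real.exp ⁻¹' (S : Set ℝ))ᶜ := hfin.countable.dense_compl ℝ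
    have hclosed : IsClosed {ξ | 0 ≤ g ξ} := isClosed_le continuous_const hgc
    have hsub : (Real.exp ⁻¹' (S : Set ℝ))ᶜ ⊆ {ξ | 0 ≤ g ξ} := by
      intro ξ hξ
      obtain ⟨w, hw, -, hgw⟩ := hform ξ (by simpa using hξ)
      show 0 ≤ g ξ
      rw [hgw]; exact hw
    intro ξ
    have h1 : closure ((Real.exp ⁻¹' (S : Set ℝ))ᶜ) ⊆ {ξ | 0 ≤ g ξ} :=
      closure_minimal hsub hclosed
    exact h1 (hdense ξ)
  -- positivity somewhere
  have hg1 : ∃ ξ, 0 < g ξ := by
    have hinf : (Set.Ioi (0 : ℝ)).Infinite := Set.Ioi_infinite 0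
    have hfin2 : ((S ∪ J.roots.toFinset : Finset ℝ) : Set ℝ).Finite := Finset.finite_toSet _
    obtain ⟨r, hr, hrn⟩ := (hinf.sdiff hfin2).nonempty
    have hr0 : 0 < r := hr
    have hrS : r ∉ S := fun h => hrn (by simp [h])
    have hrJ : J.eval r ≠ 0 := by
      intro h0
      apply hrn
      have : r ∈ J.roots.toFinset := by
        rw [Multiset.mem_toFinset]
        exact (mem_roots hJ).2 h0
      simp only [Finset.coe_union, Set.mem_union, Finset.mem_coe]
      exact Or.inr this
    refine ⟨Real.log r, ?_⟩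
    obtain ⟨w, -, hw, hgw⟩ := hform (Real.log r) (by rw [Real.exp_log hr0]; exact hrS)
    rw [hgw]
    apply hw
    rw [Real.exp_log hr0]
    exact hrJ
  -- the limit of the integrals of g
  have hlim2 : Tendsto (fun T : ℝ => ∫ ξ in (-T)..T, g ξ) atTop (𝓝 0) := by
    have h1 : ∀ T : ℝ, ∫ ξ in (-T)..T, g ξ = σ * (∫ ξ in (-T)..T,
        (f ((ξ : ℂ) + φ * Complex.I) - f ((ξ : ℂ) - φ * Complex.I))).im := by
      intro T
      rw [hg, intervalIntegral.integral_const_mul]
      congr 1
      have h2 := Complex.imCLM.intervalIntegral_comp_comm (a := -T) (b := T)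
        (μ := MeasureTheory.volume)
        (f := fun ξ : ℝ => f ((ξ : ℂ) + φ * Complex.I) - f ((ξ : ℂ) - φ * Complex.I))
        ((hc1.sub hc2).intervalIntegrable _ _)
      simpa using h2
    simp_rw [h1]
    have h3 : Tendsto (fun T : ℝ => σ * (∫ ξ in (-T)..T,
        (f ((ξ : ℂ) + φ * Complex.I) - f ((ξ : ℂ) - φ * Complex.I))).im) atTop
        (𝓝 (σ * (0 : ℂ).im)) :=
      tendsto_const_nhds.mul ((Complex.continuous_im.tendsto 0).comp hlim)
    simpa using h3
  exact no_tendsto_zero g hgc hg0 hg1 hlim2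

end SEC
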