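/- MP_5180ba_lc, piece R4: Lemma W (b), the degenerate case `J = 0`. -/
import Pool.Agent.Lib_MP_5180ba_sec.Rot
import Pool.Agent.Lib_MP_5180ba_sec.LA4
set_option autoImplicit false
open Polynomial

namespace SEC

private theorem lb_conj (G : ℝ[X]) (z : ℂ) :
    (toC G).eval ((starRingEnd ℂ) z) = (starRingEnd ℂ) ((toC G).eval z) := by
  unfold toC
  rw [eval_map_algebraMap, eval_map_algebraMap, aeval_conj]

private theorem lb_eta (d : ℕ) (hd : 1 ≤ d) : IsPrimitiveRoot (zeta d ^ 2) d := by
  have h := Complex.isPrimitiveRoot_exp d (by omega)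
  have h2 : zeta d ^ 2 = Complex.exp (2 * Real.pi * Complex.I / d) := by
    unfold zeta
    rw [← Complex.exp_nat_mul]
    congr 1
    push_cast
    ring
  rw [h2]
  exact h

private theorem lb_zeta_conj (d : ℕ) : (starRingEnd ℂ) (zeta d) * zeta d = 1 := by
  unfold zeta
  rw [← Complex.exp_conj, ← Complex.exp_add]
  have h : (starRingEnd ℂ) (Complex.I * (Real.pi / d)) + Complex.I * (Real.pi / d) = 0 := by
    rw [map_mul, map_div₀, Complex.conj_I, Complex.conj_ofReal, Complex.conj_natCast]
    ring
  rw [h, Complex.exp_zero]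

private theorem lb_ident (d : ℕ) (F G : ℝ[X]) (hJ : Jp d F G = 0) :
    (toC F).comp (C (zeta d ^ 2) * X) * toC G = toC F * (toC G).comp (C (zeta d ^ 2) * X) := by
  have hpoly : (toC F).comp (C (zeta d) * X) * (toC G).comp (C ((starRingEnd ℂ) (zeta d)) * X)
      = (toC F).comp (C ((starRingEnd ℂ) (zeta d)) * X) * (toC G).comp (C (zeta d) * X) := by
    apply eq_of_infinite_eval_eq
    refine (Set.infinite_range_of_injective Complex.ofReal_injective).mono ?_
    rintro _ ⟨r, rfl⟩
    simp only [Set.mem_ofPred_eq, eval_mul, eval_comp, eval_C, eval_X]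
    have h := Jp_eval d F G r
    rw [hJ, eval_zero] at h
    have h1 := Complex.conj_eq_iff_im.2 h.symm
    rw [map_mul, Complex.conj_conj, ← lb_conj, ← lb_conj, map_mul, Complex.conj_ofReal] at h1
    exact h1.symm
  have hev : ∀ x : ℂ, (toC F).eval (zeta d ^ 2 * x) * (toC G).eval x
      = (toC F).eval x * (toC G).eval (zeta d ^ 2 * x) := by
    intro x
    have h := congrArg (fun p => eval (zeta d * x) p) hpoly
    simp only [eval_mul, eval_comp, eval_C, eval_X] at h
    rw [← mul_assoc, ← mul_assoc, lb_zeta_conj, one_mul, ← sq] at h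
    exact h
  apply Polynomial.funext
  intro x
  simp only [eval_mul, eval_comp, eval_C, eval_X]
  exact hev x

private theorem lb_rot_ne {η : ℂ} (hη : η ≠ 0) {p : ℂ[X]} (hp : p ≠ 0) :
    p.comp (C η * X) ≠ 0 := by
  intro h
  apply hp
  apply Polynomial.funext
  intro x
  have h1 := congrArg (fun q => eval (η⁻¹ * x) q) h
  simp only [eval_comp, eval_mul, eval_C, eval_X, eval_zero] at h1
  rw [mul_inv_cancel_left₀ hη] at h1
  rw [h1, eval_zero]

open Classical in
private theorem lb_sum (d : ℕ) (p : ℕ → ℂ → Prop)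
    (hp : ∀ x, ((Finset.range d).filter (fun k => p k x)).card ≤ 1) (M : Multiset ℂ) :
    ∑ k ∈ Finset.range d, (M.filter (p k)).card ≤ M.card := by
  induction M using Multiset.induction_on with
  | empty => simp
  | cons a M ih =>
    have h1 : ∀ k, ((a ::ₘ M).filter (p k)).card = (M.filter (p k)).card + if p k a then 1 else 0 := by
      intro k
      by_cases h : p k a
      · rw [Multiset.filter_cons_of_pos _ h, Multiset.card_cons, if_pos h]
      · rw [Multiset.filter_cons_of_neg _ h, if_neg h, add_zero]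
    simp only [h1, Finset.sum_add_distrib, Multiset.card_cons]
    have h2 : ∑ k ∈ Finset.range d, (if p k a then 1 else 0) ≤ 1 := by
      rw [← Finset.card_filter]
      exact hp a
    omega

open Classical in
private theorem lb_count (d : ℕ) (hd : 1 ≤ d) (θ : ℂ) (hθ : IsPrimitiveRoot θ d) (M : Multiset ℂ)
    (hM : M.map (fun x => θ * x) = M) : d * (M.filter (InO d)).card ≤ M.card := by
  have hk : ∀ k : ℕ, M.map (fun x => θ ^ k * x) = M := by
    intro k
    induction k with
    | zero => simp
    | succ k ih =>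
      conv_rhs => rw [← ih, ← hM, Multiset.map_map]
      apply Multiset.map_congr rfl
      intro x _
      simp only [Function.comp]
      ring
  have h1 : ∀ k : ℕ, (M.filter (InO d)).card = (M.filter (fun x => InO d (θ ^ k * x))).card := by
    intro k
    conv_lhs => rw [← hk k]
    rw [Multiset.filter_map, Multiset.card_map]
    rfl
  have h2 := lb_sum d (fun k x => InO d (θ ^ k * x)) (fun x => by
    refine Finset.card_le_one.2 fun j hj k hk' => ?_
    rw [Finset.mem_filter, Finset.mem_range] at hj hk'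
    obtain ⟨hj1, hj2⟩ := hj
    obtain ⟨hk1, hk2⟩ := hk'
    have hx : x ≠ 0 := fun h => hj2.1 (by rw [h, mul_zero])
    have hpow : ∀ i : ℕ, (θ ^ i * x) ^ d = x ^ d := by
      intro i
      rw [mul_pow, ← pow_mul, mul_comm i d, pow_mul, hθ.pow_eq_one, one_pow, one_mul]
    have h3 := pow_inj d hd _ _ ⟨hj2.1, hj2.2.le⟩ hk2 ((hpow j).trans (hpow k).symm)
    exact hθ.pow_inj hj1 hk1 (mul_right_cancel₀ hx h3)) M
  have h3 : ∑ k ∈ Finset.range d, (M.filter (fun x => InO d (θ ^ k * x))).card
      = d * (M.filter (InO d)).card := by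
    rw [Finset.sum_congr rfl fun k _ => (h1 k).symm, Finset.sum_const, Finset.card_range,
      smul_eq_mul]
  rw [h3] at h2
  exact h2

theorem lemW_b (d : ℕ) (hd : 1 ≤ d) (F G : ℝ[X]) (hF : F ≠ 0) (hG : G ≠ 0)
    (hJ : Jp d F G = 0) :
    d * cntO d F ≤ F.natDegree + d * cntC d G := by
  classical
  have hη := lb_eta d hd
  have hη0 : zeta d ^ 2 ≠ 0 := by
    intro h
    have h1 := hη.pow_eq_one
    rw [h, zero_pow (by omega)] at h1
    exact zero_ne_one h1
  have hid := lb_ident d F G hJ
  set η := zeta d ^ 2 with hηdef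
  have hf0 : toC F ≠ 0 := (Polynomial.map_ne_zero_iff (algebraMap ℝ ℂ).injective).2 hF
  have hg0 : toC G ≠ 0 := (Polynomial.map_ne_zero_iff (algebraMap ℝ ℂ).injective).2 hG
  have hdeg : (toC F).natDegree = F.natDegree := natDegree_map _
  obtain ⟨f1, g1, D, hrel, hf, hg⟩ := UniqueFactorizationMonoid.exists_reduced_factors' (toC F)
    (toC G) hg0
  have hcop : IsCoprime f1 g1 := hrel.isCoprime
  have hD0 : D ≠ 0 := by
    intro h
    rw [h, zero_mul] at hf
    exact hf0 hf.symm
  have hf1 : f1 ≠ 0 := by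
    intro h
    rw [h, mul_zero] at hf
    exact hf0 hf.symm
  have hmul : f1.comp (C η * X) * g1 = f1 * g1.comp (C η * X) := by
    have h1 : D * D.comp (C η * X) ≠ 0 := mul_ne_zero hD0 (lb_rot_ne hη0 hD0)
    apply mul_left_cancel₀ h1
    rw [← hf, ← hg, mul_comp, mul_comp] at hid
    linear_combination hid
  have hdvd : f1 ∣ f1.comp (C η * X) :=
    hcop.dvd_of_dvd_mul_right ⟨g1.comp (C η * X), hmul⟩
  have hmap : (f1.comp (C η * X)).roots.map (fun x => η * x) = f1.roots := by
    have h := map_roots_comp_C_mul_X_add_C f1 η 0 (IsUnit.mk0 η hη0)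
    simpa only [C_0, add_zero] using h
  have hle : f1.roots ≤ (f1.comp (C η * X)).roots :=
    roots.le_of_dvd (lb_rot_ne hη0 hf1) hdvd
  have heq : f1.roots = (f1.comp (C η * X)).roots := by
    refine Multiset.eq_of_le_of_card_le hle ?_
    conv_rhs => rw [← hmap, Multiset.card_map]
  have hinv : f1.roots.map (fun x => η * x) = f1.roots := by
    conv_lhs => rw [heq]
    exact hmap
  have hc1 := lb_count d hd η hη f1.roots hinv
  have hc2 : f1.roots.card ≤ F.natDegree := by
    have h1 : f1.roots.card ≤ f1.natDegree := card_roots' f1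
    have h2 : f1.natDegree ≤ (toC F).natDegree := by
      rw [← hf, natDegree_mul hD0 hf1]
      omega
    omega
  have hc3 : cntO d F = (D.roots.filter (InO d)).card + (f1.roots.filter (InO d)).card := by
    unfold cntO
    rw [← hf, roots_mul (mul_ne_zero hD0 hf1), Multiset.filter_add, Multiset.card_add]
  have hc4 : (D.roots.filter (InO d)).card ≤ cntC d G := by
    unfold cntC
    refine Multiset.card_le_card ?_
    have h1 : D.roots ≤ (toC G).roots := roots.le_of_dvd hg0 ⟨g1, hg.symm⟩
    refine (Multiset.filter_le_filter _ h1).trans ?_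
    exact Multiset.monotone_filter_right _ fun x hx => ⟨hx.1, hx.2.le⟩
  rw [hc3, mul_add]
  have := Nat.mul_le_mul_left d hc4
  omega

end SEC
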