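/- MP_5180ba_lc, piece R5: the core theorem, by double induction. -/
import Pool.Agent.Lib_MP_5180ba_sec.ClsL
import Pool.Agent.Lib_MP_5180ba_sec.Cnt
import Pool.Agent.Lib_MP_5180ba_sec.LemA
import Pool.Agent.Lib_MP_5180ba_sec.LemB
set_option autoImplicit false
open Polynomial

namespace SEC

/-- the statement of the core theorem for `c` steps -/
def CoreAt (c : ℕ) : Prop :=
  ∀ R : ℕ, ∃ K : ℕ, ∀ ds : List ℕ, ds.length = c → ds.Pairwise (fun a b => b ≤ a) →
    (∀ d ∈ ds, 1 ≤ d) → ∀ n : ℕ, 1 ≤ n → ∀ P : ℝ[X], Cls ds n R P → P ≠ 0 →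
      cntP P ≤ K * n

theorem coreAt_zero : CoreAt 0 := by
  intro R
  refine ⟨0, ?_⟩
  intro ds hds _ _ n _ P hP _
  have h0 : ds = [] := List.length_eq_zero_iff.1 hds
  subst h0
  obtain ⟨a, rfl⟩ := hP
  have := cntP_le_natDegree (C a)
  simpa using this

private theorem list_sum_le (d : ℕ) : ∀ ds : List ℕ, (∀ e ∈ ds, e ≤ d) → ds.sum ≤ ds.length * d
  | [], _ => by simp
  | e :: ds, h => by
    have h1 := list_sum_le d ds (fun x hx => h x (List.mem_cons_of_mem _ hx))
    have h2 := h e List.mem_cons_self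
    rw [List.sum_cons, List.length_cons]
    nlinarith

/-- Lemma W in a common form -/
private theorem lemW (d : ℕ) (hd : 1 ≤ d) (F G : ℝ[X]) (hF : F ≠ 0) (hG : G ≠ 0) (M : ℕ)
    (hM : Jp d F G ≠ 0 → cntP (Jp d F G) ≤ M) :
    d * cntO d F ≤ F.natDegree + d * (2 * cntC d G + M + 1) := by
  by_cases hJ : Jp d F G = 0
  · refine (lemW_b d hd F G hF hG hJ).trans ?_
    gcongr
    omega
  · refine (lemW_a d hd F G hF hG hJ).trans ?_
    have := hM hJ
    gcongr

private theorem cntC_one (d : ℕ) : cntC d (1 : ℝ[X]) = 0 := by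
  simp [cntC, toC]

private theorem Jp_one (d : ℕ) (F : ℝ[X]) : Jp d F 1 = rotIm (zeta d) F := by
  have h1 : rotRe (zeta d) (1 : ℝ[X]) = 1 := by
    have := rotRe_C (zeta d) 1
    simpa using this
  have h2 : rotIm (zeta d) (1 : ℝ[X]) = 0 := by
    have := rotIm_C (zeta d) 1
    simpa using this
  rw [Jp, h1, h2]
  ring

/-- inner induction, on the number `k` of terms -/
theorem inner (c : ℕ) (IH : CoreAt c) : ∀ k R : ℕ, ∃ K : ℕ, ∀ (d : ℕ) (ds : List ℕ),
    ds.length = c → (d :: ds).Pairwise (fun a b => b ≤ a) → (∀ e ∈ d :: ds, 1 ≤ e) →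
    ∀ n : ℕ, 1 ≤ n → ∀ h G : Fin k → ℝ[X], (∀ j, (h j).natDegree ≤ n) →
    (∀ j, Cls ds n R (G j)) → (∑ j, expand ℝ d (h j) * G j) ≠ 0 →
      cntP (∑ j, expand ℝ d (h j) * G j) ≤ K * n := by
  intro k
  induction k with
  | zero =>
    intro R
    refine ⟨0, ?_⟩
    intro d ds _ _ _ n _ h G _ _ hne
    exact absurd (by simp) hne
  | succ k ihk =>
    intro R
    obtain ⟨K1, hK1⟩ := ihk R
    obtain ⟨K2, hK2⟩ := ihk (8 * R * R)
    obtain ⟨K3, hK3⟩ := IH (2 * R)
    refine ⟨K1 + (7 * c + 2 * K3 + 2 * K2 + 4), ?_⟩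
    intro d ds hlen hpw hge n hn h G hh hG hne
    set F : ℝ[X] := ∑ j, expand ℝ d (h j) * G j with hF
    have hd : 1 ≤ d := hge d List.mem_cons_self
    have hpw' := List.pairwise_cons.1 hpw
    have hsum : ds.sum ≤ c * d := by
      have := list_sum_le d ds hpw'.1
      rwa [hlen] at this
    have hdegG : ∀ j, (G j).natDegree ≤ n * (c * d) := fun j =>
      (cls_natDegree ds (hG j)).trans (Nat.mul_le_mul_left n hsum)
    have hdegF : F.natDegree ≤ (c + 1) * n * d := by
      rw [hF]
      apply Polynomial.natDegree_sum_le_of_forall_le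
      intro j _
      refine Polynomial.natDegree_mul_le.trans ?_
      rw [Polynomial.natDegree_expand]
      have h1 := hh j
      have h2 := hdegG j
      nlinarith
    by_cases hG0 : G 0 = 0
    · have hF' : F = ∑ j : Fin k, expand ℝ d (h j.succ) * G j.succ := by
        rw [hF, Fin.sum_univ_succ, hG0, mul_zero, zero_add]
      have := hK1 d ds hlen hpw hge n hn (fun j => h j.succ) (fun j => G j.succ)
        (fun j => hh _) (fun j => hG _) (by rw [← hF']; exact hne)
      rw [← hF'] at this
      refine this.trans ?_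
      gcongr
      omega
    · rcases Nat.lt_or_ge d 2 with hd2 | hd2
      · have hd1 : d = 1 := by omega
        have h1 := cntP_le_natDegree F
        rw [hd1, mul_one] at hdegF
        exact h1.trans (hdegF.trans (Nat.mul_le_mul_right n (by omega)))
      · -- the polynomial J
        have hJ : Jp d F (G 0) = ∑ j : Fin k, expand ℝ d ((h j.succ).comp (-X)) *
            Jp d (G j.succ) (G 0) := by
          rw [hF, Jp_sum, Fin.sum_univ_succ, Jp_expand_mul d hd, Jp_self, mul_zero, zero_add]
          refine Finset.sum_congr rfl fun j _ => ?_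
          rw [Jp_expand_mul d hd]
        have hM : Jp d F (G 0) ≠ 0 → cntP (Jp d F (G 0)) ≤ K2 * (2 * n) := by
          intro hJne
          rw [hJ] at hJne ⊢
          refine hK2 d ds hlen hpw hge (2 * n) (by omega) (fun j => (h j.succ).comp (-X))
            (fun j => Jp d (G j.succ) (G 0)) ?_ ?_ hJne
          · intro j
            refine Polynomial.natDegree_comp_le.trans ?_
            have := hh j.succ
            rw [natDegree_neg, natDegree_X, mul_one]
            omega
          · intro j
            exact cls_Jp ds d (hG j.succ) (hG 0)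
        have hW := lemW d hd F (G 0) hne hG0 (K2 * (2 * n)) hM
        -- the zeros of `G 0`
        set d' : ℕ := d / 2 with hd'
        have hd'1 : 1 ≤ d' := by omega
        have hdd' : d ≤ 3 * d' := by omega
        have hM' : Jp d' (G 0) 1 ≠ 0 → cntP (Jp d' (G 0) 1) ≤ K3 * n := by
          intro hJne
          rw [Jp_one] at hJne ⊢
          exact hK3 ds hlen hpw'.2 (fun e he => hge e (List.mem_cons_of_mem _ he)) n hn _
            (cls_rot ds (zeta d') (hG 0)).2 hJne
        have hW' := lemW d' hd'1 (G 0) 1 hG0 one_ne_zero (K3 * n) hM'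
        rw [cntC_one, mul_zero, zero_add] at hW'
        have hY : cntO d' (G 0) ≤ 3 * c * n + (K3 * n + 1) := by
          have h1 : d' * cntO d' (G 0) ≤ d' * (3 * c * n + (K3 * n + 1)) := by
            calc d' * cntO d' (G 0) ≤ (G 0).natDegree + d' * (K3 * n + 1) := hW'
              _ ≤ n * (c * d) + d' * (K3 * n + 1) := by gcongr; exact hdegG 0
              _ ≤ n * (c * (3 * d')) + d' * (K3 * n + 1) := by gcongr
              _ = d' * (3 * c * n + (K3 * n + 1)) := by ring
          exact Nat.le_of_mul_le_mul_left h1 hd'1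
        have hC := cntC_le_cntO d hd2 (G 0)
        have hfin : d * cntO d F ≤ d * ((c + 1) * n + (2 * (3 * c * n + (K3 * n + 1)) +
            K2 * (2 * n) + 1)) := by
          calc d * cntO d F ≤ F.natDegree + d * (2 * cntC d (G 0) + K2 * (2 * n) + 1) := hW
            _ ≤ (c + 1) * n * d + d * (2 * (3 * c * n + (K3 * n + 1)) + K2 * (2 * n) + 1) := by
                gcongr
                exact hC.trans hY
            _ = _ := by ring
        have hfin' := Nat.le_of_mul_le_mul_left hfin hd
        have hP := cntP_le_cntO d hd F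
        nlinarith

theorem coreAt_succ (c : ℕ) (IH : CoreAt c) : CoreAt (c + 1) := by
  intro R
  obtain ⟨K, hK⟩ := inner c IH R R
  refine ⟨K, ?_⟩
  intro ds hlen hpw hge n hn P hP hne
  cases ds with
  | nil => simp at hlen
  | cons d ds =>
    obtain ⟨h, G, hh, hG, rfl⟩ := hP
    exact hK d ds (by simpa using hlen) hpw hge n hn h G hh hG hne

theorem coreAt (c : ℕ) : CoreAt c := by
  induction c with
  | zero => exact coreAt_zero
  | succ c ih => exact coreAt_succ c ih

end SEC
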