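/- MP_5180ba_lc, piece R6: Rolle elimination of the starting points. -/
import Pool.Agent.Lib_MP_5180ba_sec.Core
set_option autoImplicit false
open Polynomial

namespace SEC

/-- membership in the finset of positive roots -/
theorem off_mem (Q : ℝ[X]) (hQ : Q ≠ 0) (x : ℝ) :
    x ∈ Q.roots.toFinset.filter (fun x => 0 < x) ↔ Q.eval x = 0 ∧ 0 < x := by
  rw [Finset.mem_filter, Multiset.mem_toFinset, mem_roots hQ, IsRoot.def]

/-- a factor without positive roots does not matter -/
theorem off_posD_mul (A Q : ℝ[X]) (hA : ∀ x : ℝ, 0 < x → A.eval x ≠ 0) :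
    posD (A * Q) = posD Q := by
  classical
  by_cases hQ : Q = 0
  · rw [hQ, mul_zero]
  have hA0 : A ≠ 0 := by
    intro h
    exact hA 1 one_pos (by rw [h, eval_zero])
  unfold posD
  congr 1
  ext x
  rw [off_mem _ (mul_ne_zero hA0 hQ), off_mem _ hQ, eval_mul]
  constructor
  · rintro ⟨h, hx⟩
    exact ⟨(mul_eq_zero.1 h).resolve_left (hA x hx), hx⟩
  · rintro ⟨h, hx⟩
    exact ⟨by rw [h, mul_zero], hx⟩

theorem off_posD_X_pow (k : ℕ) (Q : ℝ[X]) : posD (X ^ k * Q) = posD Q :=
  off_posD_mul _ _ fun x hx => by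
    rw [eval_pow, eval_X]; exact (pow_pos hx k).ne'

/-- Rolle: between two positive roots of `F` there is a root of `E` or of `F' E - F E'`. -/
theorem posD_rolle (F E : ℝ[X]) (hF : F ≠ 0) (hE : E ≠ 0)
    (hW : derivative F * E - F * derivative E ≠ 0) :
    posD F ≤ 2 * posD E + posD (derivative F * E - F * derivative E) + 1 := by
  classical
  set W := derivative F * E - F * derivative E with hWdef
  set SF := F.roots.toFinset.filter (fun x => 0 < x) with hSF
  set SE := E.roots.toFinset.filter (fun x => 0 < x) with hSE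
  set SW := W.roots.toFinset.filter (fun x => 0 < x) with hSW
  have eF : posD F = SF.card := rfl
  have eE : posD E = SE.card := rfl
  have eW : posD W = SW.card := rfl
  rw [eF, eE, eW]
  have hint : (SF \ SE).card ≤ (SE ∪ SW).card + 1 := by
    apply Finset.card_le_of_interleaved
    intro x hx y hy hxy _
    rw [Finset.mem_sdiff, hSF, hSE, off_mem _ hF, off_mem _ hE] at hx hy
    obtain ⟨⟨hFx, hx0⟩, hEx⟩ := hx
    obtain ⟨⟨hFy, hy0⟩, hEy⟩ := hy
    have hEx' : E.eval x ≠ 0 := fun h => hEx ⟨h, hx0⟩
    have hEy' : E.eval y ≠ 0 := fun h => hEy ⟨h, hy0⟩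
    by_cases hz : ∃ z, x < z ∧ z < y ∧ E.eval z = 0
    · obtain ⟨z, hxz, hzy, hEz⟩ := hz
      exact ⟨z, Finset.mem_union_left _ ((off_mem _ hE z).2 ⟨hEz, hx0.trans hxz⟩), hxz, hzy⟩
    · push Not at hz
      have hne : ∀ z ∈ Set.Icc x y, E.eval z ≠ 0 := by
        intro z hz'
        rcases eq_or_lt_of_le hz'.1 with h1 | h1
        · rw [← h1]; exact hEx'
        rcases eq_or_lt_of_le hz'.2 with h2 | h2
        · rw [h2]; exact hEy'
        exact hz z h1 h2
      have hcont : ContinuousOn (fun z => F.eval z / E.eval z) (Set.Icc x y) :=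
        (F.continuous.continuousOn).div (E.continuous.continuousOn) hne
      obtain ⟨z, hzm, hzd⟩ := exists_deriv_eq_zero hxy hcont (by
        simp only [hFx, hFy, zero_div])
      have hEz : E.eval z ≠ 0 := hne z ⟨hzm.1.le, hzm.2.le⟩
      have hd : HasDerivAt (fun z => F.eval z / E.eval z)
          ((F.derivative.eval z * E.eval z - F.eval z * E.derivative.eval z) / E.eval z ^ 2) z :=
        (F.hasDerivAt z).div (E.hasDerivAt z) hEz
      rw [hd.deriv] at hzd
      have hnum : F.derivative.eval z * E.eval z - F.eval z * E.derivative.eval z = 0 := by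
        rcases div_eq_zero_iff.1 hzd with h | h
        · exact h
        · exact absurd h (pow_ne_zero 2 hEz)
      refine ⟨z, Finset.mem_union_right _ ((off_mem _ hW z).2 ⟨?_, hx0.trans hzm.1⟩),
        hzm.1, hzm.2⟩
      rw [hWdef, eval_sub, eval_mul, eval_mul]
      exact hnum
  have h1 : SF.card ≤ (SF \ SE).card + SE.card := by
    have := Finset.card_le_card_sdiff_add_card (s := SF) (t := SE)
    exact this
  have h2 : (SE ∪ SW).card ≤ SE.card + SW.card := Finset.card_union_le _ _
  omega

/-- if the Wronskian vanishes, `F` and `E` are proportional -/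
theorem posD_prop (F E : ℝ[X]) (hF : F ≠ 0) (hE : E ≠ 0)
    (hW : derivative F * E - F * derivative E = 0) : posD F = posD E := by
  classical
  obtain ⟨g, hg, F1, E1, hF1, hE1, hc⟩ : ∃ g : ℝ[X], g ≠ 0 ∧ ∃ F1 E1 : ℝ[X],
      F = g * F1 ∧ E = g * E1 ∧ IsCoprime F1 E1 := by
    have hg : EuclideanDomain.gcd F E ≠ 0 := by
      intro h
      exact hF (EuclideanDomain.gcd_eq_zero_iff.1 h).1
    obtain ⟨F1, hF1⟩ := EuclideanDomain.gcd_dvd_left F E
    obtain ⟨E1, hE1⟩ := EuclideanDomain.gcd_dvd_right F E
    have hb := EuclideanDomain.gcd_eq_gcd_ab F E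
    generalize EuclideanDomain.gcd F E = g at *
    generalize EuclideanDomain.gcdA F E = u at *
    generalize EuclideanDomain.gcdB F E = v at *
    refine ⟨g, hg, F1, E1, hF1, hE1, u, v, ?_⟩
    apply mul_left_cancel₀ hg
    calc g * (u * F1 + v * E1) = (g * F1) * u + (g * E1) * v := by ring
      _ = F * u + E * v := by rw [← hF1, ← hE1]
      _ = g := hb.symm
      _ = g * 1 := (mul_one g).symm
  have hw : wronskian F1 E1 = 0 := by
    have h : g ^ 2 * wronskian F1 E1 = 0 := by
      rw [hF1, hE1, derivative_mul, derivative_mul] at hW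
      rw [wronskian]
      linear_combination (-1) * hW
    exact (mul_eq_zero.1 h).resolve_left (pow_ne_zero 2 hg)
  obtain ⟨hdF, hdE⟩ := hc.wronskian_eq_zero_iff.1 hw
  have cF := eq_C_of_derivative_eq_zero hdF
  have cE := eq_C_of_derivative_eq_zero hdE
  have key : ∀ (Q : ℝ[X]) (a : ℝ), Q = g * C a → Q ≠ 0 → posD Q = posD g := by
    intro Q a hQ hQ0
    rw [hQ, mul_comm]
    apply off_posD_mul
    intro x _ h
    rw [eval_C] at h
    apply hQ0
    rw [hQ, h, C_0, mul_zero]
  rw [key F _ (by rw [← cF]; exact hF1) hF, key E _ (by rw [← cE]; exact hE1) hE]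

/-- sums of boundedly many blocks `x ^ τ * B` with `B` in the class -/
theorem blocks (c : ℕ) : ∀ B R : ℕ, ∃ K : ℕ, ∀ ds : List ℕ,
    ds.length = c → ds.Pairwise (fun a b => b ≤ a) → (∀ e ∈ ds, 1 ≤ e) →
    ∀ n : ℕ, 1 ≤ n → ∀ (τ : Fin B → ℕ) (P : Fin B → ℝ[X]), (∀ b, Cls ds n R (P b)) →
    (∑ b, X ^ (τ b) * P b) ≠ 0 → posD (∑ b, X ^ (τ b) * P b) ≤ K * n := by
  intro B
  induction B with
  | zero =>
    intro R
    refine ⟨0, fun ds _ _ _ n _ τ P _ h => ?_⟩
    exact absurd (Finset.sum_empty) h
  | succ B ih =>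
    intro R
    obtain ⟨K1, hK1⟩ := coreAt c R
    obtain ⟨K0, hK0⟩ := ih R
    obtain ⟨K2, hK2⟩ := ih ((R + 2 * R) * R + R * (R + 2 * R))
    refine ⟨K0 + 2 * K1 + 2 * K2 + 1, ?_⟩
    intro ds hl hp h1 n hn τ P hP hne
    have hsplit : (∑ b, X ^ (τ b) * P b) =
        X ^ (τ 0) * P 0 + ∑ b : Fin B, X ^ (τ b.succ) * P b.succ := Fin.sum_univ_succ _
    by_cases hP0 : P 0 = 0
    · have hs : (∑ b, X ^ (τ b) * P b) = ∑ b : Fin B, X ^ (τ b.succ) * P b.succ := by
        rw [hsplit, hP0, mul_zero, zero_add]
      rw [hs] at hne ⊢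
      have := hK0 ds hl hp h1 n hn (fun b => τ b.succ) (fun b => P b.succ)
        (fun b => hP b.succ) hne
      calc posD (∑ b : Fin B, X ^ (τ b.succ) * P b.succ) ≤ K0 * n := this
        _ ≤ (K0 + 2 * K1 + 2 * K2 + 1) * n := Nat.mul_le_mul_right _ (by omega)
    · set F := (∑ b, X ^ (τ b) * P b) with hFdef
      set E := X ^ (τ 0) * P 0 with hEdef
      have hE : E ≠ 0 := mul_ne_zero (pow_ne_zero _ X_ne_zero) hP0
      have hEb : posD E ≤ K1 * n := by
        rw [hEdef, off_posD_X_pow]
        exact (posD_le_cntP _).trans (hK1 ds hl hp h1 n hn _ (hP 0) hP0)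
      by_cases hW : derivative F * E - F * derivative E = 0
      · rw [posD_prop F E hne hE hW]
        exact hEb.trans (Nat.mul_le_mul_right _ (by omega))
      · have hroll := posD_rolle F E hne hE hW
        set Q : Fin B → ℝ[X] := fun b =>
          (C (τ b.succ : ℝ) * P b.succ + X * derivative (P b.succ)) * P 0 -
            P b.succ * (C (τ 0 : ℝ) * P 0 + X * derivative (P 0)) with hQdef
        have hQ : ∀ b, Cls ds (2 * n) ((R + 2 * R) * R + R * (R + 2 * R)) (Q b) := by
          intro b
          rw [two_mul]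
          exact cls_sub ds
            (cls_mul ds (cls_add ds (cls_C_mul ds _ (hP b.succ)) (cls_xder ds (hP b.succ)))
              (hP 0))
            (cls_mul ds (hP b.succ)
              (cls_add ds (cls_C_mul ds _ (hP 0)) (cls_xder ds (hP 0))))
        have hXd : ∀ (k : ℕ) (A : ℝ[X]), X * derivative (X ^ k * A) =
            X ^ k * (C (k : ℝ) * A + X * derivative A) := by
          intro k A
          rw [derivative_mul, derivative_X_pow]
          rcases k with _ | k
          · simp
          · have : (X : ℝ[X]) ^ (k + 1 - 1) = X ^ k := by rw [Nat.add_sub_cancel]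
            rw [this]
            ring
        have hXW : X * (derivative F * E - F * derivative E) =
            ∑ b : Fin B, X ^ (τ b.succ + τ 0) * Q b := by
          have h3 : X * derivative F = X * derivative E +
              ∑ b : Fin B, X ^ (τ b.succ) * (C (τ b.succ : ℝ) * P b.succ +
                X * derivative (P b.succ)) := by
            rw [hsplit, derivative_add, mul_add, derivative_sum, Finset.mul_sum]
            congr 1
            exact Finset.sum_congr rfl fun b _ => hXd _ _
          have h4 : X * derivative E = X ^ (τ 0) * (C (τ 0 : ℝ) * P 0 + X * derivative (P 0)) :=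
            hXd _ _
          have h5 : X * (derivative F * E - F * derivative E) =
              (X * derivative F) * E - F * (X * derivative E) := by ring
          rw [h5, h3, hsplit]
          have h6 : (X * derivative E + ∑ b : Fin B, X ^ (τ b.succ) *
              (C (τ b.succ : ℝ) * P b.succ + X * derivative (P b.succ))) * E -
              (E + ∑ b : Fin B, X ^ (τ b.succ) * P b.succ) * (X * derivative E) =
              (∑ b : Fin B, X ^ (τ b.succ) *
              (C (τ b.succ : ℝ) * P b.succ + X * derivative (P b.succ))) * E -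
              (∑ b : Fin B, X ^ (τ b.succ) * P b.succ) * (X * derivative E) := by ring
          rw [h6, h4, Finset.sum_mul, Finset.sum_mul, ← Finset.sum_sub_distrib]
          refine Finset.sum_congr rfl fun b _ => ?_
          rw [hQdef, hEdef, pow_add]
          ring
        have hWb : posD (derivative F * E - F * derivative E) ≤ K2 * (2 * n) := by
          have e1 : posD (derivative F * E - F * derivative E) =
              posD (X * (derivative F * E - F * derivative E)) := by
            have := off_posD_X_pow 1 (derivative F * E - F * derivative E)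
            rw [pow_one] at this
            exact this.symm
          rw [e1, hXW]
          exact hK2 ds hl hp h1 (2 * n) (by omega) (fun b => τ b.succ + τ 0) Q hQ
            (by rw [← hXW]; exact mul_ne_zero X_ne_zero hW)
        calc posD F ≤ 2 * posD E + posD (derivative F * E - F * derivative E) + 1 := hroll
          _ ≤ 2 * (K1 * n) + K2 * (2 * n) + n := by omega
          _ ≤ (K0 + 2 * K1 + 2 * K2 + 1) * n := by nlinarith [Nat.zero_le (K0 * n)]

end SEC
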