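/- MP_5180ba_lc, piece R7: assembly. -/
import Pool.Agent.Lib_MP_5180ba_sec.Off
set_option autoImplicit false
set_option linter.unusedVariables false
open Polynomial

namespace SEC

/-- a polynomial whose support is covered by the progressions `l` is a sum of pieces
`x ^ start * p (x ^ step)` -/
theorem decompose {c : ℕ} (st sp ln : Fin c → ℕ) (hsp : ∀ l, 1 ≤ sp l) (f : ℝ[X])
    (hf : ∀ e ∈ f.support, ∃ l, ∃ j < ln l, e = st l + j * sp l) :
    ∃ p : Fin c → ℝ[X], (∀ l, (p l).natDegree ≤ ln l) ∧
      f = ∑ l, X ^ (st l) * expand ℝ (sp l) (p l) := by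
  classical
  choose L J hJ he using hf
  refine ⟨fun l => ∑ e ∈ f.support.attach.filter (fun e => L e.1 e.2 = l),
    monomial (J e.1 e.2) (f.coeff e.1), ?_, ?_⟩
  · intro l
    refine natDegree_sum_le_of_forall_le _ _ ?_
    intro e he'
    refine (natDegree_monomial_le _).trans ?_
    have := hJ e.1 e.2
    rw [(Finset.mem_filter.1 he').2] at this
    exact this.le
  · have h1 : ∀ l, X ^ (st l) * expand ℝ (sp l)
        (∑ e ∈ f.support.attach.filter (fun e => L e.1 e.2 = l),
          monomial (J e.1 e.2) (f.coeff e.1))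
        = ∑ e ∈ f.support.attach.filter (fun e => L e.1 e.2 = l),
          monomial e.1 (f.coeff e.1) := by
      intro l
      rw [map_sum, Finset.mul_sum]
      refine Finset.sum_congr rfl fun e he' => ?_
      have h2 := he e.1 e.2
      rw [(Finset.mem_filter.1 he').2] at h2
      rw [expand_monomial, ← monomial_one_right_eq_X_pow, monomial_mul_monomial, one_mul, ← h2]
    rw [Finset.sum_congr rfl fun l _ => h1 l, Finset.sum_fiberwise,
      Finset.sum_attach f.support (fun e => monomial e (f.coeff e))]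
    exact f.as_sum_support

/-- the bound for the distinct positive roots -/
theorem pos_bound (s c : ℕ) : ∃ K : ℕ, ∀ (T : ℕ), 1 ≤ T → ∀ (st sp ln : Fin c → ℕ),
    (∀ l, 1 ≤ sp l) → (∀ l, ln l ≤ T) → ∀ (a : Fin s → ℝ) (f : Fin s → ℝ[X]),
    (∀ i, ∀ e ∈ (f i).support, ∃ l, ∃ j < ln l, e = st l + j * sp l) →
    (∑ i, a i • f i ^ 2) ≠ 0 → posD (∑ i, a i • f i ^ 2) ≤ K * T := by
  classical
  obtain ⟨K, hK⟩ := blocks c (c * c) (s * (1 * 1))
  refine ⟨K * 2, fun T hT st sp ln hsp hln a f hf hne => ?_⟩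
  choose p hp1 hp2 using fun i => decompose st sp ln hsp (f i) (hf i)
  let ds : List ℕ := (List.ofFn sp).insertionSort (fun a b => b ≤ a)
  have hperm : ds.Perm (List.ofFn sp) := List.perm_insertionSort _ _
  have hlen : ds.length = c := by rw [hperm.length_eq, List.length_ofFn]
  have hsort : ds.Pairwise (fun a b => b ≤ a) := List.pairwise_insertionSort _ _
  have hpos : ∀ e ∈ ds, 1 ≤ e := by
    intro e he
    rw [hperm.mem_iff, List.mem_ofFn] at he
    obtain ⟨l, rfl⟩ := he
    exact hsp l
  have hmem : ∀ l, sp l ∈ ds := fun l => by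
    rw [hperm.mem_iff, List.mem_ofFn]
    exact ⟨l, rfl⟩
  let e : Fin (c * c) ≃ Fin c × Fin c := finProdFinEquiv.symm
  let τ : Fin (c * c) → ℕ := fun b => st (e b).1 + st (e b).2
  let P : Fin (c * c) → ℝ[X] := fun b => ∑ i, C (a i) *
    (expand ℝ (sp (e b).1) (p i (e b).1) * expand ℝ (sp (e b).2) (p i (e b).2))
  have hcls : ∀ b, Cls ds (T + T) (s * (1 * 1)) (P b) := by
    intro b
    have := cls_sum (Finset.univ : Finset (Fin s)) ds (fun i => C (a i) *
      (expand ℝ (sp (e b).1) (p i (e b).1) * expand ℝ (sp (e b).2) (p i (e b).2)))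
      (fun i _ => cls_C_mul ds (a i) (cls_mul ds
        (cls_expand ds (hmem _) ((hp1 i _).trans (hln _)))
        (cls_expand ds (hmem _) ((hp1 i _).trans (hln _)))))
    rw [Finset.card_univ, Fintype.card_fin] at this
    exact this
  have hsum : ∑ i, a i • f i ^ 2 = ∑ b, X ^ (τ b) * P b := by
    have h1 : ∑ b, X ^ (τ b) * P b = ∑ x : Fin c × Fin c, X ^ (st x.1 + st x.2) *
        ∑ i, C (a i) * (expand ℝ (sp x.1) (p i x.1) * expand ℝ (sp x.2) (p i x.2)) :=
      Equiv.sum_comp e (fun x : Fin c × Fin c => X ^ (st x.1 + st x.2) *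
        ∑ i, C (a i) * (expand ℝ (sp x.1) (p i x.1) * expand ℝ (sp x.2) (p i x.2)))
    have h2 : ∀ i, a i • f i ^ 2 = ∑ l, ∑ l', X ^ (st l + st l') *
        (C (a i) * (expand ℝ (sp l) (p i l) * expand ℝ (sp l') (p i l'))) := by
      intro i
      conv_lhs => rw [hp2 i]
      rw [pow_two, Finset.sum_mul_sum, smul_eq_C_mul, Finset.mul_sum]
      refine Finset.sum_congr rfl fun l _ => ?_
      rw [Finset.mul_sum]
      refine Finset.sum_congr rfl fun l' _ => ?_
      ring
    rw [h1, Fintype.sum_prod_type]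
    simp only [Finset.mul_sum]
    rw [Finset.sum_congr rfl fun i _ => h2 i, Finset.sum_comm]
    refine Finset.sum_congr rfl fun l _ => ?_
    rw [Finset.sum_comm]
  rw [hsum] at hne ⊢
  refine (hK ds hlen hsort hpos (T + T) (by omega) τ P hcls hne).trans ?_
  exact le_of_eq (by ring)

/-- all distinct real roots: positive roots of `P`, of `P (-x)`, and `0` -/
theorem card_roots_le (P : ℝ[X]) :
    P.roots.toFinset.card ≤ posD P + posD (P.comp (-X)) + 1 := by
  classical
  by_cases hP : P = 0
  · simp [hP]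
  have hQ : P.comp (-X) ≠ 0 := by
    intro h
    apply hP
    have h2 : (P.comp (-X)).comp (-X) = P := by
      rw [comp_assoc]
      simp
    rw [← h2, h, zero_comp]
  have hsub : P.roots.toFinset ⊆ (P.roots.toFinset.filter (fun x => 0 < x)) ∪
      (((P.comp (-X)).roots.toFinset.filter (fun x => 0 < x)).image (fun x => -x)) ∪ {0} := by
    intro x hx
    rw [Finset.mem_union, Finset.mem_union, Finset.mem_filter, Finset.mem_image,
      Finset.mem_singleton]
    rcases lt_trichotomy x 0 with h | h | h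
    · left
      right
      refine ⟨-x, ?_, neg_neg x⟩
      rw [Finset.mem_filter, Multiset.mem_toFinset, mem_roots hQ]
      refine ⟨?_, by linarith⟩
      rw [Multiset.mem_toFinset, mem_roots hP, IsRoot.def] at hx
      rw [IsRoot.def, eval_comp]
      simpa using hx
    · right
      exact h
    · left
      left
      exact ⟨hx, h⟩
  refine (Finset.card_le_card hsub).trans ?_
  refine (Finset.card_union_le _ _).trans ?_
  rw [Finset.card_singleton]
  refine Nat.add_le_add_right ?_ 1
  refine (Finset.card_union_le _ _).trans ?_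
  refine Nat.add_le_add ?_ ?_
  · unfold posD
    exact le_of_eq (by congr)
  · refine Finset.card_image_le.trans ?_
    unfold posD
    exact le_of_eq (by congr)

/-- Q1's bound for supports covered by `c` progressions of total length at most
`κ` times the support-sum -/
theorem progressions (s c κ : ℕ) : ∃ K : ℕ, ∀ (a : Fin s → ℝ) (f : Fin s → ℝ[X])
    (st sp ln : Fin c → ℕ), (∀ l, 1 ≤ sp l) →
    (∀ i, ∀ e ∈ (f i).support, ∃ l, ∃ j < ln l, e = st l + j * sp l) →
    ∑ l, ln l ≤ κ * ∑ i, (f i).support.card →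
    (∑ i, a i • f i ^ 2) ≠ 0 →
      (∑ i, a i • f i ^ 2).roots.toFinset.card ≤ K * ∑ i, (f i).support.card := by
  obtain ⟨K, hK⟩ := pos_bound s c
  refine ⟨2 * K * κ + 1, fun a f st sp ln hsp hf hln hne => ?_⟩
  set N : ℕ := ∑ i, (f i).support.card with hN
  have hT : 1 ≤ κ * N := by
    by_contra hcon
    have h0 : κ * N = 0 := by omega
    rw [h0] at hln
    apply hne
    refine Finset.sum_eq_zero fun i _ => ?_
    have : f i = 0 := by
      by_contra hfi
      obtain ⟨e, he⟩ := Finset.nonempty_iff_ne_empty.2 (support_eq_empty.not.2 hfi)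
      obtain ⟨l, j, hj, -⟩ := hf i e he
      have := Finset.single_le_sum (f := ln) (fun _ _ => Nat.zero_le _) (Finset.mem_univ l)
      omega
    rw [this]
    simp
  have hN1 : 1 ≤ N := by
    rcases Nat.eq_zero_or_pos N with h | h
    · rw [h] at hT
      omega
    · exact h
  have hln' : ∀ l, ln l ≤ κ * N := fun l =>
    (Finset.single_le_sum (f := ln) (fun _ _ => Nat.zero_le _) (Finset.mem_univ l)).trans hln
  have h1 := hK (κ * N) hT st sp ln hsp hln' a f hf hne
  have hcomp : (∑ i, a i • f i ^ 2).comp (-X) = ∑ i, a i • ((f i).comp (-X)) ^ 2 := by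
    rw [← coe_compRingHom_apply, map_sum]
    refine Finset.sum_congr rfl fun i _ => ?_
    rw [coe_compRingHom_apply, smul_comp, pow_comp]
  have hne2 : ∑ i, a i • ((f i).comp (-X)) ^ 2 ≠ 0 := by
    rw [← hcomp]
    intro h
    apply hne
    have h2 : ((∑ i, a i • f i ^ 2).comp (-X)).comp (-X) = ∑ i, a i • f i ^ 2 := by
      rw [comp_assoc]
      simp
    rw [← h2, h, zero_comp]
  have hf2 : ∀ i, ∀ e ∈ ((f i).comp (-X)).support, ∃ l, ∃ j < ln l, e = st l + j * sp l := by
    intro i e he
    apply hf i e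
    rw [mem_support_iff] at he ⊢
    intro h
    apply he
    have hX : (-X : ℝ[X]) = C (-1) * X := by simp
    rw [hX, comp_C_mul_X_coeff, h, zero_mul]
  have h2 := hK (κ * N) hT st sp ln hsp hln' a (fun i => (f i).comp (-X)) hf2 hne2
  have h3 := card_roots_le (∑ i, a i • f i ^ 2)
  rw [hcomp] at h3
  refine h3.trans ?_
  have h4 : (2 * K * κ + 1) * N = K * (κ * N) + K * (κ * N) + N := by ring
  rw [h4]
  omega

end SEC
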