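/- MP_5180ba_lc, piece R8: sums of boundedly many terms `x ^ τ * ∏ p_l (x ^ d_l)`. -/
import Pool.Agent.Lib_MP_5180ba_sec.Fin
set_option autoImplicit false
open Polynomial

namespace SEC

theorem cls_prod (ds : List ℕ) {n : ℕ} : ∀ (c : ℕ) (P : Fin c → ℝ[X]),
    (∀ l, Cls ds n 1 (P l)) → Cls ds (c * n) 1 (∏ l, P l) := by
  intro c
  induction c with
  | zero =>
    intro P _
    rw [Fin.prod_univ_zero, ← C_1]
    exact cls_C ds _ 1
  | succ c ih =>
    intro P hP
    rw [Fin.prod_univ_succ]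
    have h := cls_mul ds (hP 0) (ih (fun l => P l.succ) (fun l => hP l.succ))
    rw [mul_one] at h
    exact cls_mono ds (le_of_eq (by ring)) le_rfl h

/-- positive roots of a sum of `B` terms `a x ^ τ * ∏ p_l (x ^ d_l)` -/
theorem pos_terms (B c : ℕ) : ∃ K : ℕ, ∀ n : ℕ, 1 ≤ n → ∀ (τ : Fin B → ℕ)
    (d : Fin B → Fin c → ℕ) (p : Fin B → Fin c → ℝ[X]) (a : Fin B → ℝ),
    (∀ b l, 1 ≤ d b l) → (∀ b l, (p b l).natDegree ≤ n) →
    (∑ b, X ^ (τ b) * (C (a b) * ∏ l, expand ℝ (d b l) (p b l))) ≠ 0 →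
    posD (∑ b, X ^ (τ b) * (C (a b) * ∏ l, expand ℝ (d b l) (p b l))) ≤ K * n := by
  classical
  obtain ⟨K, hK⟩ := blocks (B * c) B 1
  refine ⟨K * (c + 1), fun n hn τ d p a hd hp hne => ?_⟩
  let e : Fin (B * c) ≃ Fin B × Fin c := finProdFinEquiv.symm
  let sp : Fin (B * c) → ℕ := fun x => d (e x).1 (e x).2
  let ds : List ℕ := (List.ofFn sp).insertionSort (fun a b => b ≤ a)
  have hperm : ds.Perm (List.ofFn sp) := List.perm_insertionSort _ _
  have hlen : ds.length = B * c := by rw [hperm.length_eq, List.length_ofFn]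
  have hsort : ds.Pairwise (fun a b => b ≤ a) := List.pairwise_insertionSort _ _
  have hpos : ∀ e ∈ ds, 1 ≤ e := by
    intro y hy
    rw [hperm.mem_iff, List.mem_ofFn] at hy
    obtain ⟨l, rfl⟩ := hy
    exact hd _ _
  have hmem : ∀ b l, d b l ∈ ds := fun b l => by
    rw [hperm.mem_iff, List.mem_ofFn]
    exact ⟨e.symm (b, l), by simp [sp]⟩
  have hcls : ∀ b, Cls ds ((c + 1) * n) 1 (C (a b) * ∏ l, expand ℝ (d b l) (p b l)) := by
    intro b
    have h := cls_prod ds c (fun l => expand ℝ (d b l) (p b l))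
      (fun l => cls_expand ds (hmem b l) (hp b l))
    exact cls_C_mul ds (a b) (cls_mono ds (Nat.mul_le_mul_right _ (Nat.le_succ c)) le_rfl h)
  refine (hK ds hlen hsort hpos ((c + 1) * n) (Nat.mul_pos (Nat.succ_pos c) hn) τ _ hcls
    hne).trans ?_
  exact le_of_eq (by ring)

/-- positive roots with multiplicity of a sum of `B` products `∏ p_l (x ^ d_l)` -/
theorem mult_terms (B c : ℕ) : ∃ K : ℕ, ∀ n : ℕ, 1 ≤ n →
    ∀ (d : Fin B → Fin c → ℕ) (p : Fin B → Fin c → ℝ[X]),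
    (∀ b l, 1 ≤ d b l) → (∀ b l, (p b l).natDegree ≤ n) →
    (∑ b, ∏ l, (p b l).comp (X ^ (d b l))) ≠ 0 →
    cntP (∑ b, ∏ l, (p b l).comp (X ^ (d b l))) ≤ K * n := by
  classical
  obtain ⟨K, hK⟩ := coreAt (B * c) (B * 1)
  refine ⟨K * (c + 1), fun n hn d p hd hp hne => ?_⟩
  let e : Fin (B * c) ≃ Fin B × Fin c := finProdFinEquiv.symm
  let sp : Fin (B * c) → ℕ := fun x => d (e x).1 (e x).2
  let ds : List ℕ := (List.ofFn sp).insertionSort (fun a b => b ≤ a)
  have hperm : ds.Perm (List.ofFn sp) := List.perm_insertionSort _ _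
  have hlen : ds.length = B * c := by rw [hperm.length_eq, List.length_ofFn]
  have hsort : ds.Pairwise (fun a b => b ≤ a) := List.pairwise_insertionSort _ _
  have hpos : ∀ e ∈ ds, 1 ≤ e := by
    intro y hy
    rw [hperm.mem_iff, List.mem_ofFn] at hy
    obtain ⟨l, rfl⟩ := hy
    exact hd _ _
  have hmem : ∀ b l, d b l ∈ ds := fun b l => by
    rw [hperm.mem_iff, List.mem_ofFn]
    exact ⟨e.symm (b, l), by simp [sp]⟩
  have hcls : Cls ds ((c + 1) * n) (B * 1) (∑ b, ∏ l, (p b l).comp (X ^ (d b l))) := by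
    have := cls_sum (Finset.univ : Finset (Fin B)) ds
      (fun b => ∏ l, (p b l).comp (X ^ (d b l))) (n := (c + 1) * n) (R := 1) (fun b _ => ?_)
    · rw [Finset.card_univ, Fintype.card_fin] at this
      exact this
    · have h := cls_prod ds c (fun l => expand ℝ (d b l) (p b l))
        (fun l => cls_expand ds (hmem b l) (hp b l))
      rw [Finset.prod_congr rfl fun l _ => (expand_eq_comp_X_pow (R := ℝ) (d b l)
        (f := p b l))] at h
      exact cls_mono ds (Nat.mul_le_mul_right _ (Nat.le_succ c)) le_rfl h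
  refine (hK ds hlen hsort hpos ((c + 1) * n) (Nat.mul_pos (Nat.succ_pos c) hn) _ hcls
    hne).trans ?_
  exact le_of_eq (by ring)

theorem expand_comp_neg (d : ℕ) (p : ℝ[X]) :
    (expand ℝ d p).comp (-X) = expand ℝ d (p.comp (C ((-1) ^ d) * X)) := by
  have hX : (-X : ℝ[X]) = C (-1) * X := by simp
  rw [expand_eq_comp_X_pow, expand_eq_comp_X_pow, comp_assoc, comp_assoc, pow_comp, X_comp,
    mul_comp, C_comp, X_comp, hX, mul_pow, ← C_pow]

/-- distinct real roots of a sum of `B` terms `a x ^ τ * ∏ p_l (x ^ d_l)` -/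
theorem all_terms (B c : ℕ) : ∃ K : ℕ, ∀ n : ℕ, 1 ≤ n → ∀ (τ : Fin B → ℕ)
    (d : Fin B → Fin c → ℕ) (p : Fin B → Fin c → ℝ[X]) (a : Fin B → ℝ),
    (∀ b l, 1 ≤ d b l) → (∀ b l, (p b l).natDegree ≤ n) →
    (∑ b, X ^ (τ b) * (C (a b) * ∏ l, expand ℝ (d b l) (p b l))) ≠ 0 →
    (∑ b, X ^ (τ b) * (C (a b) * ∏ l, expand ℝ (d b l) (p b l))).roots.toFinset.card
      ≤ K * n := by
  obtain ⟨K, hK⟩ := pos_terms B c
  refine ⟨2 * K + 1, fun n hn τ d p a hd hp hne => ?_⟩
  set F : ℝ[X] := ∑ b, X ^ (τ b) * (C (a b) * ∏ l, expand ℝ (d b l) (p b l)) with hF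
  have h1 : posD F ≤ K * n := hK n hn τ d p a hd hp hne
  have hc : F.comp (-X) = ∑ b, X ^ (τ b) * (C ((-1) ^ (τ b) * a b) *
      ∏ l, expand ℝ (d b l) ((p b l).comp (C ((-1) ^ (d b l)) * X))) := by
    rw [hF, ← coe_compRingHom_apply, map_sum]
    refine Finset.sum_congr rfl fun b _ => ?_
    rw [map_mul, map_mul, map_prod]
    simp only [coe_compRingHom_apply]
    rw [Finset.prod_congr rfl fun l _ => expand_comp_neg (d b l) (p b l), C_comp, pow_comp,
      X_comp, C_mul, C_pow]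
    have hX : (-X : ℝ[X]) = C (-1) * X := by simp
    rw [hX, mul_pow]
    ring
  have hcne : F.comp (-X) ≠ 0 := by
    intro h
    apply hne
    have h2 : (F.comp (-X)).comp (-X) = F := by
      rw [comp_assoc]
      simp
    rw [← h2, h, zero_comp]
  have h2 : posD (F.comp (-X)) ≤ K * n := by
    rw [hc] at hcne ⊢
    refine hK n hn τ d (fun b l => (p b l).comp (C ((-1) ^ (d b l)) * X))
      (fun b => (-1) ^ (τ b) * a b) hd (fun b l => ?_) hcne
    refine natDegree_comp_le.trans ?_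
    refine (Nat.mul_le_mul (hp b l) ((natDegree_C_mul_le _ _).trans natDegree_X_le)).trans ?_
    rw [mul_one]
  have h3 := card_roots_le F
  have h4 : (2 * K + 1) * n = K * n + K * n + n := by ring
  rw [h4]
  omega

/-- squares: each `f i` is a sum of `c` terms `x ^ σ * ∏ p_l (x ^ d_l)`, `c` factors each -/
theorem squares_prod (s c : ℕ) : ∃ K : ℕ, ∀ n : ℕ, 1 ≤ n → ∀ (σ : Fin s → Fin c → ℕ)
    (d : Fin s → Fin c → Fin c → ℕ) (p : Fin s → Fin c → Fin c → ℝ[X]),
    (∀ i j l, 1 ≤ d i j l) → (∀ i j l, (p i j l).natDegree ≤ n) →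
    ∀ (a : Fin s → ℝ) (f : Fin s → ℝ[X]),
    (∀ i, f i = ∑ j, X ^ (σ i j) * ∏ l, (p i j l).comp (X ^ (d i j l))) →
    (∑ i, a i • f i ^ 2) ≠ 0 → (∑ i, a i • f i ^ 2).roots.toFinset.card ≤ K * n := by
  obtain ⟨K, hK⟩ := all_terms (s * (c * c)) (c + c)
  refine ⟨K, fun n hn σ d p hd hp a f hf hne => ?_⟩
  let e : Fin (s * (c * c)) ≃ Fin s × (Fin c × Fin c) :=
    finProdFinEquiv.symm.trans (Equiv.prodCongr (Equiv.refl _) finProdFinEquiv.symm)
  have hsq : ∀ i, a i • f i ^ 2 = ∑ j, ∑ j', X ^ (σ i j + σ i j') * (C (a i) *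
      ∏ l : Fin (c + c), expand ℝ (Fin.addCases (d i j) (d i j') l)
        (Fin.addCases (p i j) (p i j') l)) := by
    intro i
    rw [hf i, pow_two, Finset.sum_mul_sum, smul_eq_C_mul, Finset.mul_sum]
    refine Finset.sum_congr rfl fun j _ => ?_
    rw [Finset.mul_sum]
    refine Finset.sum_congr rfl fun j' _ => ?_
    rw [Fin.prod_univ_add]
    simp only [Fin.addCases_left, Fin.addCases_right]
    rw [Finset.prod_congr rfl fun l _ => (expand_eq_comp_X_pow (R := ℝ) (d i j l) (f := p i j l)),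
      Finset.prod_congr rfl fun l _ => (expand_eq_comp_X_pow (R := ℝ) (d i j' l) (f := p i j' l))]
    ring
  have hsum : ∑ i, a i • f i ^ 2 = ∑ b, X ^ (σ (e b).1 (e b).2.1 + σ (e b).1 (e b).2.2) *
      (C (a (e b).1) * ∏ l : Fin (c + c),
        expand ℝ (Fin.addCases (d (e b).1 (e b).2.1) (d (e b).1 (e b).2.2) l)
          (Fin.addCases (p (e b).1 (e b).2.1) (p (e b).1 (e b).2.2) l)) := by
    have h1 := Equiv.sum_comp e (fun x : Fin s × (Fin c × Fin c) =>
      X ^ (σ x.1 x.2.1 + σ x.1 x.2.2) * (C (a x.1) * ∏ l : Fin (c + c),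
        expand ℝ (Fin.addCases (d x.1 x.2.1) (d x.1 x.2.2) l)
          (Fin.addCases (p x.1 x.2.1) (p x.1 x.2.2) l : ℝ[X])))
    rw [h1, Fintype.sum_prod_type]
    refine Finset.sum_congr rfl fun i _ => ?_
    rw [hsq i, Fintype.sum_prod_type]
  rw [hsum] at hne ⊢
  refine hK n hn (fun b => σ (e b).1 (e b).2.1 + σ (e b).1 (e b).2.2)
    (fun b l => Fin.addCases (d (e b).1 (e b).2.1) (d (e b).1 (e b).2.2) l)
    (fun b l => Fin.addCases (p (e b).1 (e b).2.1) (p (e b).1 (e b).2.2) l)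
    (fun b => a (e b).1) (fun b l => ?_) (fun b l => ?_) hne
  · refine Fin.addCases (fun l => ?_) (fun l => ?_) l
    · simp only [Fin.addCases_left]; exact hd _ _ _
    · simp only [Fin.addCases_right]; exact hd _ _ _
  · refine Fin.addCases (fun l => ?_) (fun l => ?_) l
    · simp only [Fin.addCases_left]; exact hp _ _ _
    · simp only [Fin.addCases_right]; exact hp _ _ _

end SEC
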